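import Pool.Agent.H83.TR.Cls
import Pool.Agent.H24.GG.Gen
import Pool.Agent.H93.GS.Asm

/-!
# Transfer of theorem (G), MP_c59857_nt: the final form
-/

set_option autoImplicit false

namespace Pool.Agent.H83.TR

open Finset Pool.Agent.H6.N4D Pool.Agent.H93.EB

/-- Liouville's function, real form -/
noncomputable def lioR (n : ℕ) : ℝ := (-1) ^ ArithmeticFunction.cardFactors n

lemma lio_lioR : Lio lioR := by
  constructor
  · intro n
    unfold lioR
    exact neg_one_pow_eq_or ℝ _
  · intro p n hp hn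
    unfold lioR
    rw [ArithmeticFunction.cardFactors_mul hp.ne_zero (by omega),
      ArithmeticFunction.cardFactors_apply_prime hp, pow_add, pow_one]
    ring

/-- theorem (G) for Liouville's function -/
theorem uf_lio (hG : Pool.Agent.H93.GS.T_GFU) : UF Lio1 := by
  intro R
  obtain ⟨K, hK, h⟩ := hG R
  refine ⟨K, hK, fun X H hH hX => ?_⟩
  obtain ⟨j, hj1, hj2, hj⟩ := h X H lioR hH hX lio_lioR
  refine ⟨j, hj1, hj2, ?_⟩
  rintro ⟨b, β, hb, hle⟩
  have hl : ∀ m, Lio1 m = ((lioR m : ℝ) : ℂ) := by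
    intro m
    unfold lioR Lio1
    push_cast
    rfl
  simp only [hl] at hle
  exact absurd (hj b β hb) (not_lt.2 hle)

lemma app_of_plain {f : ℕ → ℂ} {R H X : ℕ} {e : ℝ} {b : ℕ → ℕ → ℂ} {β : ℕ → ℕ → ℝ}
    (hb : ∀ n r, ‖b n r‖ ≤ 1)
    (hcon : ∑ n ∈ Icc 1 X, 1 / (n : ℝ) * ((∑ h ∈ Icc 1 H, ‖f (n + h) - ∑ r ∈ range R,
      b n r * Complex.exp (2 * Real.pi * Complex.I * (β n r * h))‖ ^ 2) / H) ≤ e * Real.log X) :
    App f R H X e := by
  refine ⟨fun n r => b n r * ee (-(β n r * n)), β, fun n r => ?_, le_trans (le_of_eq ?_) hcon⟩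
  · rw [norm_mul, norm_eeT, mul_one]
    exact hb n r
  · unfold lg
    refine sum_congr rfl fun n _ => ?_
    have hI : Ioc n (n + H) = (Icc 1 H).image (fun h => n + h) := by
      ext m
      rw [mem_Ioc, mem_image]
      constructor
      · intro hm
        exact ⟨m - n, by rw [mem_Icc]; omega, by omega⟩
      · rintro ⟨h, hh, rfl⟩
        rw [mem_Icc] at hh
        omega
    dsimp only
    rw [hI, sum_image (fun a _ b _ hab => by simpa using hab), one_div, inv_mul_eq_div]
    congr 2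
    refine sum_congr rfl fun h _ => ?_
    congr 3
    refine sum_congr rfl fun r _ => ?_
    have h1 : Complex.exp (2 * Real.pi * Complex.I * (β n r * h)) = ee (β n r * h) := by
      rw [ee_eq]
      congr 1
      push_cast
      ring
    rw [h1, mul_assoc, ← ee_addT]
    congr 2
    push_cast
    ring

/-- the plain form -/
theorem ggf_of_uf {f : ℕ → ℂ} (h : UF f) : Pool.Agent.H24.GG.GGf f := by
  intro R
  obtain ⟨K, hK, h⟩ := h R
  refine ⟨K, fun H X hH hX => ?_⟩
  obtain ⟨j, hj1, hj2, hj⟩ := h X H hH hX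
  refine ⟨j, hj1, hj2, fun b β hb => ?_⟩
  by_contra hcon
  push Not at hcon
  exact hj (app_of_plain hb hcon)

lemma ut_eq (t : ℝ) {n : ℕ} (hn : n ≠ 0) : ut t n = (n : ℂ) ^ ((t : ℂ) * Complex.I) := by
  unfold ut
  rw [Complex.cpow_def_of_ne_zero (by exact_mod_cast hn), ← Complex.natCast_log]
  congr 1
  push_cast
  ring

/-- **Theorem (G) for all functions of the class of Liouville's function.** Let `f` have values
in the unit disc, be multiplicative on the squarefree numbers and let its values at the primes be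
close to those of `λ(n) χ(n) n ^ (i t)`. Then `f` is not locally almost periodic. -/
theorem tr (hG : Pool.Agent.H93.GS.T_GFU) (k : ℕ) [NeZero k] (χ : DirichletCharacter ℂ k) (t : ℝ)
    (f : ℕ → ℂ) (hb : ∀ n, ‖f n‖ ≤ 1) (hm : ∀ n, Squarefree n → f n = ∏ p ∈ n.primeFactors, f p)
    (hs : Summable (fun p : Nat.Primes => ‖f p + χ ((p : ℕ) : ZMod k) *
      ((p : ℕ) : ℂ) ^ ((t : ℂ) * Complex.I)‖ / ((p : ℕ) : ℝ))) :
    Pool.Agent.H24.GG.GGf f := by
  have hC : Cl f k χ t := ⟨hb, hm, hs.congr fun p => by rw [ut_eq t p.2.ne_zero]⟩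
  exact ggf_of_uf (uf_cl (uf_lio hG) (NeZero.one_le) hC)

/-- Liouville's function with a character -/
theorem tr_lambda (hG : Pool.Agent.H93.GS.T_GFU) (k : ℕ) [NeZero k] (χ : DirichletCharacter ℂ k) :
    Pool.Agent.H24.GG.GGf (fun n => χ (n : ZMod k) *
      (-1) ^ ArithmeticFunction.cardFactors n) := by
  refine tr hG k χ 0 _ (fun n => ?_) (fun n hn => ?_) ?_
  · rw [norm_mul, norm_pow, norm_neg, norm_one, one_pow, mul_one]
    exact χ.norm_le_one _
  · rw [prod_mul_distrib, ← map_prod, ← Nat.cast_prod, Nat.prod_primeFactors_of_squarefree hn,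
      prod_pow_eq_pow_sum]
    congr 2
    have h1 : ∀ p ∈ n.primeFactors, ArithmeticFunction.cardFactors p = 1 := fun p hp =>
      ArithmeticFunction.cardFactors_apply_prime (Nat.prime_of_mem_primeFactors hp)
    rw [sum_congr rfl h1, sum_const, smul_eq_mul, mul_one,
      ← (ArithmeticFunction.cardDistinctFactors_eq_cardFactors_iff_squarefree hn.ne_zero).2 hn]
    rfl
  · have h0 : ∀ p : Nat.Primes, ‖χ ((p : ℕ) : ZMod k) * (-1) ^ ArithmeticFunction.cardFactors (p : ℕ)
        + χ ((p : ℕ) : ZMod k) * ((p : ℕ) : ℂ) ^ (((0 : ℝ) : ℂ) * Complex.I)‖ / ((p : ℕ) : ℝ) = 0 := by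
      intro p
      rw [ArithmeticFunction.cardFactors_apply_prime p.2, pow_one]
      simp
    exact summable_zero.congr fun p => (h0 p).symm

/-- Möbius' function with a character -/
theorem tr_mu (hG : Pool.Agent.H93.GS.T_GFU) (k : ℕ) [NeZero k] (χ : DirichletCharacter ℂ k) :
    Pool.Agent.H24.GG.GGf (fun n => χ (n : ZMod k) * (ArithmeticFunction.moebius n : ℂ)) := by
  refine tr hG k χ 0 _ (fun n => ?_) (fun n hn => ?_) ?_
  · rw [norm_mul]
    refine mul_le_one₀ (χ.norm_le_one _) (norm_nonneg _) ?_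
    have h1 := ArithmeticFunction.abs_moebius_le_one (n := n)
    have h2 : ‖((ArithmeticFunction.moebius n : ℤ) : ℂ)‖ = ((|ArithmeticFunction.moebius n| : ℤ) : ℝ) := by
      rw [Complex.norm_intCast, Int.cast_abs]
    rw [h2]
    exact_mod_cast h1
  · rw [prod_mul_distrib, ← map_prod, ← Nat.cast_prod, Nat.prod_primeFactors_of_squarefree hn]
    congr 1
    have h1 : ∀ p ∈ n.primeFactors, ((ArithmeticFunction.moebius p : ℤ) : ℂ) = -1 := fun p hp => by
      rw [ArithmeticFunction.moebius_apply_prime (Nat.prime_of_mem_primeFactors hp)]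
      simp
    rw [prod_congr rfl h1, prod_const, ArithmeticFunction.moebius_apply_of_squarefree hn,
      ← (ArithmeticFunction.cardDistinctFactors_eq_cardFactors_iff_squarefree hn.ne_zero).2 hn]
    push_cast
    rfl
  · have h0 : ∀ p : Nat.Primes, ‖χ ((p : ℕ) : ZMod k) *
        ((ArithmeticFunction.moebius (p : ℕ) : ℤ) : ℂ)
        + χ ((p : ℕ) : ZMod k) * ((p : ℕ) : ℂ) ^ (((0 : ℝ) : ℂ) * Complex.I)‖ / ((p : ℕ) : ℝ) = 0 := by
      intro p
      rw [ArithmeticFunction.moebius_apply_prime p.2]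
      simp
    exact summable_zero.congr fun p => (h0 p).symm

end Pool.Agent.H83.TR
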