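import Pool.Agent.H83.TR.Uni
import Pool.Agent.H83.TR.Fin

/-!
# Transfer of theorem (G), MP_c59857_nt: the class, uniformly
-/

set_option autoImplicit false

namespace Pool.Agent.H83.TR

open Finset Pool.Agent.H6.N4D Pool.Agent.H93.EB

/-- The class: values in the unit disc, multiplicative on the squarefree numbers, at the primes
`p` at distance at most `ρ p` from `λ χ n ^ (i t)` with a character modulo `k` and `|t| ≤ T`. -/
def ClU (k : ℕ) (T : ℝ) (ρ : ℕ → ℝ) (f : ℕ → ℂ) : Prop :=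
  ∃ (χ : DirichletCharacter ℂ k) (t : ℝ), |t| ≤ T ∧ (∀ n, ‖f n‖ ≤ 1) ∧
    (∀ n : ℕ, Squarefree n → f n = ∏ p ∈ n.primeFactors, f p) ∧
    ∀ p : ℕ, p.Prime → ‖f p + χ (p : ZMod k) * ut t p‖ ≤ ρ p

/-- the majorant -/
noncomputable def mj (ρ : ℕ → ℝ) (q : ℕ) : ℝ := if q.Prime then |ρ q| else 0

lemma mj_nonneg (ρ : ℕ → ℝ) (q : ℕ) : 0 ≤ mj ρ q := by
  unfold mj
  split_ifs
  · exact abs_nonneg _
  · exact le_rfl

lemma mj_summable {ρ : ℕ → ℝ} (h : Summable (fun p : Nat.Primes => ρ p / ((p : ℕ) : ℝ))) :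
    Summable (fun q : ℕ => mj ρ q / q) := by
  have h1 := (summable_subtype_iff_indicator (s := {p : ℕ | p.Prime})
    (f := fun q : ℕ => |ρ q| / (q : ℝ))).1 (by
      refine h.abs.congr fun p => ?_
      rw [abs_div, Nat.abs_cast]
      rfl)
  refine h1.congr fun q => ?_
  unfold mj
  by_cases hq : q.Prime
  · rw [if_pos hq, Set.indicator_of_mem (by exact hq)]
  · rw [if_neg hq, Set.indicator_of_notMem (by exact hq), zero_div]

lemma cl_of {k : ℕ} {ρ : ℕ → ℝ} {f : ℕ → ℂ}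
    (h : Summable (fun p : Nat.Primes => ρ p / ((p : ℕ) : ℝ))) {χ : DirichletCharacter ℂ k}
    {t : ℝ} (hb : ∀ n, ‖f n‖ ≤ 1)
    (hm : ∀ n : ℕ, Squarefree n → f n = ∏ p ∈ n.primeFactors, f p)
    (hp : ∀ p : ℕ, p.Prime → ‖f p + χ (p : ZMod k) * ut t p‖ ≤ ρ p) : Cl f k χ t :=
  ⟨hb, hm, Summable.of_nonneg_of_le (fun p => by positivity)
    (fun p => div_le_div_of_nonneg_right (hp p p.2) (Nat.cast_nonneg _)) h⟩

lemma ap_le {k : ℕ} {ρ : ℕ → ℝ} {f : ℕ → ℂ} {χ : DirichletCharacter ℂ k} {t : ℝ}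
    (hp : ∀ p : ℕ, p.Prime → ‖f p + χ (p : ZMod k) * ut t p‖ ≤ ρ p) (q : ℕ) :
    ap f χ t q ≤ mj ρ q := by
  unfold ap mj
  split_ifs with hq
  · exact (hp q hq).trans (le_abs_self _)
  · exact le_rfl

/-- the class satisfies the hypothesis of the transfer -/
theorem trU_cl (k : ℕ) (T : ℝ) (ρ : ℕ → ℝ) (hk : 1 ≤ k) (hT : 0 ≤ T)
    (hρ : Summable (fun p : Nat.Primes => ρ p / ((p : ℕ) : ℝ))) : TrU (ClU k T ρ) Lio1 := by
  classical
  intro ε hε
  -- the parameters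
  obtain ⟨w₁, hw₁⟩ := tail_small (a := fun q : ℕ => mj ρ q / q)
    (fun q => div_nonneg (mj_nonneg ρ q) (Nat.cast_nonneg _)) (mj_summable hρ)
    (δ := ε / 8) (by positivity)
  have hsq : Summable (fun q : ℕ => 1 / (q : ℝ) ^ 2) :=
    Real.summable_one_div_nat_pow.2 (by norm_num)
  obtain ⟨w₂, hw₂⟩ := tail_small (a := fun q : ℕ => 1 / (q : ℝ) ^ 2) (fun q => by positivity) hsq
    (δ := ε / 8) (by positivity)
  set w := max k (max w₁ w₂) with hw
  obtain ⟨D₀, hD₀⟩ := tail_small (a := fun D : ℕ => if D ≠ 0 ∧ Sm w D then (1 : ℝ) / D else 0)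
    (fun D => by split_ifs <;> positivity) (smooth_summable w)
    (δ := ε / 8) (by positivity)
  refine ⟨D₀, k * w.factorial, ε, T, Nat.mul_pos hk (Nat.factorial_pos _), hT, ?_⟩
  rintro f ⟨χ, t, ht, hb, hm, hp⟩
  have h := cl_of hρ hb hm hp
  refine ⟨ut t, cc χ t w, norm_ut t, fun n h' hn => (ut_slow t n h' hn).trans ?_,
    norm_cc χ t w, per_cc χ t w, fun Y hY => ?_⟩
  · apply div_le_div_of_nonneg_right _ (Nat.cast_nonneg _)
    exact mul_le_mul_of_nonneg_right ht (Nat.cast_nonneg _)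
  have hlY : 0 ≤ Real.log Y := Real.log_nonneg (by exact_mod_cast hY)
  have h1 : ∀ n ∈ Icc 1 Y, ‖ut t n * Lio1 n - dl D₀ (cc χ t w) f n‖ ^ 2 / (n : ℝ) ≤
      ∑ D ∈ Ioc D₀ Y, (if D ≠ 0 ∧ Sm w D then (1 : ℝ) else 0) * (if D ∣ n then 1 / (n : ℝ) else 0) +
      2 * ∑ q ∈ Ioc w Y, (mj ρ q * (if q ∣ n then 1 / (n : ℝ) else 0) +
        2 * (if q ^ 2 ∣ n then 1 / (n : ℝ) else 0)) := by
    intro n hn
    rw [mem_Icc] at hn
    have hn0 : (0 : ℝ) < n := by exact_mod_cast hn.1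
    have h2 := pt_le h w D₀ Y n hk (le_max_left _ _) hn.1 hn.2
    have h3 := div_le_div_of_nonneg_right h2 hn0.le
    refine h3.trans ?_
    rw [add_div, mul_div_assoc, sum_div, sum_div]
    apply add_le_add
    · refine le_of_eq (sum_congr rfl fun D _ => ?_)
      by_cases hd : D ∣ n
      · rw [if_pos hd, if_pos hd]
        ring
      · rw [if_neg hd, if_neg hd]
        ring
    · apply mul_le_mul_of_nonneg_left _ (by norm_num)
      refine sum_le_sum fun q _ => ?_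
      rw [add_div]
      apply add_le_add
      · by_cases hd : q ∣ n
        · rw [if_pos hd, if_pos hd, ← mul_one_div]
          exact mul_le_mul_of_nonneg_right (ap_le hp q) (by positivity)
        · rw [if_neg hd, if_neg hd, zero_div, mul_zero]
      · by_cases hd : q ^ 2 ∣ n
        · rw [if_pos hd, if_pos hd]
          apply le_of_eq
          ring
        · rw [if_neg hd, if_neg hd]
          apply le_of_eq
          ring
  refine (sum_le_sum h1).trans ?_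
  rw [sum_add_distrib, ← mul_sum, sum_comm, sum_comm (s := Icc 1 Y) (t := Ioc w Y)]
  set M : ℝ := 1 + Real.log Y with hM
  have hM0 : 0 ≤ M := by linarith
  have h2 : ∑ D ∈ Ioc D₀ Y, ∑ n ∈ Icc 1 Y,
      (if D ≠ 0 ∧ Sm w D then (1 : ℝ) else 0) * (if D ∣ n then 1 / (n : ℝ) else 0) ≤
      ε / 8 * M := by
    have h3 : ∀ D ∈ Ioc D₀ Y, ∑ n ∈ Icc 1 Y,
        (if D ≠ 0 ∧ Sm w D then (1 : ℝ) else 0) * (if D ∣ n then 1 / (n : ℝ) else 0) ≤
        (if D ≠ 0 ∧ Sm w D then (1 : ℝ) / D else 0) * M := by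
      intro D hD
      rw [mem_Ioc] at hD
      rw [← mul_sum]
      by_cases hc : D ≠ 0 ∧ Sm w D
      · rw [if_pos hc, if_pos hc, one_mul]
        exact sum_dvd Y D (by omega) hY
      · rw [if_neg hc, if_neg hc, zero_mul, zero_mul]
    refine (sum_le_sum h3).trans ?_
    rw [← sum_mul]
    exact mul_le_mul_of_nonneg_right (hD₀ D₀ le_rfl Y) hM0
  have h4 : ∑ q ∈ Ioc w Y, ∑ n ∈ Icc 1 Y, (mj ρ q * (if q ∣ n then 1 / (n : ℝ) else 0) +
        2 * (if q ^ 2 ∣ n then 1 / (n : ℝ) else 0)) ≤ ε / 8 * M + 2 * (ε / 8 * M) := by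
    have h5 : ∀ q ∈ Ioc w Y, ∑ n ∈ Icc 1 Y, (mj ρ q * (if q ∣ n then 1 / (n : ℝ) else 0) +
        2 * (if q ^ 2 ∣ n then 1 / (n : ℝ) else 0)) ≤
        mj ρ q / q * M + 2 * (1 / (q : ℝ) ^ 2 * M) := by
      intro q hq
      rw [mem_Ioc] at hq
      rw [sum_add_distrib, ← mul_sum, ← mul_sum]
      apply add_le_add
      · have h6 := mul_le_mul_of_nonneg_left (sum_dvd Y q (by omega) hY) (mj_nonneg ρ q)
        refine h6.trans (le_of_eq ?_)
        ring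
      · apply mul_le_mul_of_nonneg_left _ (by norm_num)
        have h6 := sum_dvd Y (q ^ 2) (Nat.pow_pos (by omega)) hY
        push_cast at h6
        exact h6
    refine (sum_le_sum h5).trans ?_
    rw [sum_add_distrib, ← sum_mul, ← mul_sum, ← sum_mul]
    apply add_le_add
    · exact mul_le_mul_of_nonneg_right (hw₁ w ((le_max_left _ _).trans (le_max_right _ _)) Y) hM0
    · apply mul_le_mul_of_nonneg_left _ (by norm_num)
      exact mul_le_mul_of_nonneg_right (hw₂ w ((le_max_right _ _).trans (le_max_right _ _)) Y) hM0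
  have h5 : 0 ≤ ε * M := by positivity
  have h6 : ε * M = ε * Real.log Y + ε := by rw [hM]; ring
  linarith

theorem redU_cl (k : ℕ) (T : ℝ) (ρ : ℕ → ℝ) (hk : 1 ≤ k) (hT : 0 ≤ T)
    (hρ : Summable (fun p : Nat.Primes => ρ p / ((p : ℕ) : ℝ))) : RedU (ClU k T ρ) Lio1 :=
  redU_of (fun n => (norm_Lio1 n).le) (fun _ ⟨_, _, _, hb, _, _⟩ => hb) (trU_cl k T ρ hk hT hρ)

/-- **Theorem (G) for the whole class, uniformly.** `K` depends on `k`, `T`, `ρ` and `R` only. -/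
theorem trU (hG : Pool.Agent.H93.GS.T_GFU) (k : ℕ) [NeZero k] (T : ℝ) (ρ : ℕ → ℝ)
    (hρ : Summable (fun p : Nat.Primes => ρ p / ((p : ℕ) : ℝ))) (R : ℕ → ℕ) :
    ∃ K : ℕ, ∀ H X : ℕ, K ≤ H → H ^ K ≤ X → ∀ (χ : DirichletCharacter ℂ k) (t : ℝ) (f : ℕ → ℂ),
      |t| ≤ T → (∀ n, ‖f n‖ ≤ 1) →
      (∀ n : ℕ, Squarefree n → f n = ∏ p ∈ n.primeFactors, f p) →
      (∀ p : ℕ, p.Prime → ‖f p + χ (p : ZMod k) * (p : ℂ) ^ ((t : ℂ) * Complex.I)‖ ≤ ρ p) →
      ∃ j : ℕ, 1 ≤ j ∧ j ≤ K ∧ ∀ (b : ℕ → ℕ → ℂ) (β : ℕ → ℕ → ℝ), (∀ n r, ‖b n r‖ ≤ 1) →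
        1 / (j : ℝ) * Real.log X < ∑ n ∈ Icc 1 X, 1 / (n : ℝ) * ((∑ h ∈ Icc 1 H,
          ‖f (n + h) - ∑ r ∈ range (R j),
            b n r * Complex.exp (2 * Real.pi * Complex.I * (β n r * h))‖ ^ 2) / H) := by
  obtain ⟨K, hK, hh⟩ := UFU.of_red (redU_cl k |T| ρ NeZero.one_le (abs_nonneg T) hρ) (uf_lio hG) R
  refine ⟨K, fun H X hH hX χ t f ht hb hm hp => ?_⟩
  obtain ⟨j, hj1, hj2, hj⟩ := hh X H hH hX f ⟨χ, t, ht.trans (le_abs_self T), hb, hm,
    fun p hpp => by rw [ut_eq t hpp.ne_zero]; exact hp p hpp⟩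
  refine ⟨j, hj1, hj2, fun b β hbb => ?_⟩
  by_contra hcon
  push Not at hcon
  exact hj (app_of_plain hbb hcon)

end Pool.Agent.H83.TR
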