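import Pool.Agent.H83.TR.Slow

/-!
# Transfer of theorem (G), MP_c59857_nt: classes of functions, with uniform constants
-/

set_option autoImplicit false

namespace Pool.Agent.H83.TR

open Finset Pool.Agent.H6.N4D Pool.Agent.H93.EB

/-- the first reduction, with uniform constants -/
theorem red_one (e : ℝ) (he : 0 < e) (D₀ k : ℕ) (C : ℝ) (hk : 1 ≤ k) :
    ∃ e' : ℝ, 0 < e' ∧ ∃ (D : ℕ) (C' : ℝ), ∀ (L f : ℕ → ℂ) (c : ℕ → ℕ → ℂ),
      (∀ n, ‖L n‖ ≤ 1) → (∀ n, ‖f n‖ ≤ 1) → (∀ D m, ‖c D m‖ ≤ 1) →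
      (∀ D m, c D (m + k) = c D m) →
      (∀ Y : ℕ, 1 ≤ Y → ∑ n ∈ Icc 1 Y, ‖L n - dl D₀ c f n‖ ^ 2 / n ≤ e / 16 * Real.log Y + C) →
      ∀ R X H : ℕ, 1 ≤ H → C' ≤ Real.log X → C' * Real.log H ≤ Real.log X →
        App f R H X e' → App L (D * R) H X e := by
  set A : ℝ := 2 * D₀ * D₀ with hA
  have hA0 : 0 ≤ A := by positivity
  have hD₀r : (0 : ℝ) ≤ D₀ := Nat.cast_nonneg _
  set U : ℝ := (1 + D₀) ^ 2 with hU
  have hU0 : 0 ≤ U := by positivity
  set B : ℝ := e + 4 * |C| + 2 * U + A * (1 + Real.log (D₀ + 1)) with hB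
  have hlD : 0 ≤ Real.log ((D₀ : ℝ) + 1) := Real.log_nonneg (by linarith)
  have hB0 : 0 ≤ B := by positivity
  refine ⟨e / (8 * (A + 1)), by positivity, D₀ * D₀ * k, 1 + 4 * B / e + 16 * U / e, ?_⟩
  intro L f c hL hf hc1 hcp hT R X H hH hX hXH ha
  rw [app_iff] at ha ⊢
  obtain ⟨g, hg, hlg⟩ := ha
  have hHr : (0 : ℝ) < H := by exact_mod_cast hH
  have hlH : 0 ≤ Real.log H := Real.log_nonneg (by exact_mod_cast hH)
  -- the approximation with the window at `0` removed
  set g' : ℕ → ℕ → ℂ := fun n => if n = 0 then (fun _ => 0) else g n with hg'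
  have hg'W : ∀ n, W R (g' n) := by
    intro n
    rw [hg']
    dsimp only
    split_ifs
    · exact W_zero R
    · exact hg n
  set E : ℕ → ℝ := fun n => (∑ m ∈ Ioc n (n + H), ‖f m - g' n m‖ ^ 2) / H with hE
  have hE0 : ∀ n, 0 ≤ E n := fun n => by
    rw [hE]
    dsimp only
    exact div_nonneg (sum_nonneg fun m _ => by positivity) hHr.le
  have hE00 : E 0 ≤ 1 := by
    rw [hE]
    dsimp only
    rw [div_le_one hHr]
    have h1 : ∀ m ∈ Ioc 0 (0 + H), ‖f m - g' 0 m‖ ^ 2 ≤ (1 : ℝ) := by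
      intro m _
      rw [hg']
      simp only [if_true, sub_zero]
      exact pow_le_one₀ (norm_nonneg _) (hf m)
    refine (sum_le_sum h1).trans ?_
    simp
  have hElg : lg X E ≤ e / (8 * (A + 1)) * Real.log X := by
    refine le_trans (le_of_eq ?_) hlg
    unfold lg
    refine sum_congr rfl fun n hn => ?_
    rw [mem_Icc] at hn
    have hn0 : n ≠ 0 := by omega
    rw [hE, hg']
    dsimp only
    rw [if_neg hn0]
  -- the new approximation
  set G : ℕ → ℕ → ℂ := fun n m => ∑ D ∈ range D₀,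
    (if (D + 1) ∣ m then c D (m / (D + 1)) * g' (n / (D + 1)) (m / (D + 1)) else 0) with hG
  have hGW : ∀ n, W (D₀ * D₀ * k * R) (G n) := by
    intro n
    have h1 : ∀ D < D₀, W (D₀ * k * R) (fun m => if (D + 1) ∣ m then
        c D (m / (D + 1)) * g' (n / (D + 1)) (m / (D + 1)) else 0) := by
      intro D hD
      have h2 := W_per (hg'W (n / (D + 1))) hk (hcp D) (hc1 D)
      have h3 := W_dil h2 (D + 1) (by omega)
      refine W_mono h3 ?_
      rw [mul_assoc]
      exact Nat.mul_le_mul_right _ (by omega)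
    have h2 := W_sum (g := fun D m => if (D + 1) ∣ m then
        c D (m / (D + 1)) * g' (n / (D + 1)) (m / (D + 1)) else 0) D₀ h1
    have h3 : D₀ * D₀ * k * R = D₀ * (D₀ * k * R) := by ring
    rw [h3]
    exact h2
  refine ⟨G, hGW, ?_⟩
  -- the error
  have hpt : ∀ n m, ‖L m - G n m‖ ^ 2 ≤ 2 * ‖L m - dl D₀ c f m‖ ^ 2 +
      2 * D₀ * ∑ D ∈ range D₀, (if (D + 1) ∣ m then
        ‖f (m / (D + 1)) - g' (n / (D + 1)) (m / (D + 1))‖ ^ 2 else 0) := by
    intro n m
    have h1 : L m - G n m = (L m - dl D₀ c f m) + (dl D₀ c f m - G n m) := by ring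
    rw [h1]
    refine (nsq_add _ _).trans ?_
    have h2 : dl D₀ c f m - G n m = ∑ D ∈ range D₀, (if (D + 1) ∣ m then
        c D (m / (D + 1)) * (f (m / (D + 1)) - g' (n / (D + 1)) (m / (D + 1))) else 0) := by
      rw [hG]
      unfold dl
      dsimp only
      rw [← sum_sub_distrib]
      refine sum_congr rfl fun D _ => ?_
      split_ifs
      · ring
      · ring
    have h3 := nsq_sum D₀ (fun D => (if (D + 1) ∣ m then
        c D (m / (D + 1)) * (f (m / (D + 1)) - g' (n / (D + 1)) (m / (D + 1))) else 0))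
    rw [← h2] at h3
    have h4 : ∑ D ∈ range D₀, ‖(if (D + 1) ∣ m then
        c D (m / (D + 1)) * (f (m / (D + 1)) - g' (n / (D + 1)) (m / (D + 1))) else 0)‖ ^ 2 ≤
        ∑ D ∈ range D₀, (if (D + 1) ∣ m then
        ‖f (m / (D + 1)) - g' (n / (D + 1)) (m / (D + 1))‖ ^ 2 else 0) := by
      refine sum_le_sum fun D _ => ?_
      split_ifs
      · rw [norm_mul, mul_pow]
        exact mul_le_of_le_one_left (by positivity) (pow_le_one₀ (norm_nonneg _) (hc1 _ _))
      · simp
    have h5 := mul_le_mul_of_nonneg_left h4 hD₀r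
    nlinarith
  have hwin : ∀ n, (∑ m ∈ Ioc n (n + H), ‖L m - G n m‖ ^ 2) / H ≤
      2 * ((∑ m ∈ Ioc n (n + H), ‖L m - dl D₀ c f m‖ ^ 2) / H) +
      2 * D₀ * ∑ D ∈ range D₀, E (n / (D + 1)) := by
    intro n
    have h1 := sum_le_sum (s := Ioc n (n + H)) fun m _ => hpt n m
    rw [sum_add_distrib, ← mul_sum, ← mul_sum, sum_comm] at h1
    have h2 : ∑ D ∈ range D₀, ∑ m ∈ Ioc n (n + H), (if (D + 1) ∣ m then
        ‖f (m / (D + 1)) - g' (n / (D + 1)) (m / (D + 1))‖ ^ 2 else 0) ≤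
        ∑ D ∈ range D₀, H * E (n / (D + 1)) := by
      refine sum_le_sum fun D _ => ?_
      refine (win_dil (D + 1) (by omega) (fun q => ‖f q - g' (n / (D + 1)) q‖ ^ 2)
        (fun _ => by positivity) n H).trans ?_
      rw [hE]
      dsimp only
      rw [mul_div_cancel₀ _ hHr.ne']
    rw [← mul_sum] at h2
    have h3 := mul_le_mul_of_nonneg_left h2 (by positivity : (0 : ℝ) ≤ 2 * D₀)
    rw [div_le_iff₀ hHr]
    calc ∑ m ∈ Ioc n (n + H), ‖L m - G n m‖ ^ 2
        ≤ 2 * ∑ m ∈ Ioc n (n + H), ‖L m - dl D₀ c f m‖ ^ 2 +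
          2 * D₀ * (H * ∑ D ∈ range D₀, E (n / (D + 1))) := h1.trans (by linarith)
      _ = _ := by field_simp
  have hmain := lg_mono (X := X) fun n _ => hwin n
  refine hmain.trans ?_
  rw [lg_add, lg_mul, lg_mul, lg_sum]
  -- the tail
  have htb : ∀ m, ‖L m - dl D₀ c f m‖ ^ 2 ≤ U := by
    intro m
    rw [hU]
    apply pow_le_pow_left₀ (norm_nonneg _)
    refine (norm_sub_le _ _).trans (add_le_add (hL m) ?_)
    unfold dl
    refine (norm_sum_le _ _).trans ?_
    have h1 : ∀ D ∈ range D₀, ‖(if (D + 1) ∣ m then c D (m / (D + 1)) * f (m / (D + 1)) else 0)‖ ≤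
        (1 : ℝ) := by
      intro D _
      split_ifs
      · rw [norm_mul]
        exact mul_le_one₀ (hc1 _ _) (norm_nonneg _) (hf _)
      · simp
    refine (sum_le_sum h1).trans ?_
    simp
  have h1 := lg_win X H hH (fun m => ‖L m - dl D₀ c f m‖ ^ 2) U (fun _ => by positivity) htb
  have hX1 : 1 < Real.log X := by
    have h2 : 0 < 4 * B / e := by
      apply div_pos _ he
      have : 0 < B := by
        rw [hB]
        have := abs_nonneg C
        positivity
      linarith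
    have h3 : 0 ≤ 16 * U / e := by positivity
    linarith
  have hX3 : 2 ≤ X := by
    by_contra hcon
    have : X = 0 ∨ X = 1 := by omega
    rcases this with h | h <;> · rw [h] at hX1; simp at hX1; linarith
  have hHX : H ≤ X := by
    have h2 : Real.log H ≤ Real.log X := by
      refine le_trans ?_ hXH
      apply le_mul_of_one_le_left hlH
      have h2 : 0 ≤ 4 * B / e := by positivity
      have h3 : 0 ≤ 16 * U / e := by positivity
      linarith
    have h3 := (Real.log_le_log_iff hHr (by positivity : (0 : ℝ) < X)).1 h2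
    exact_mod_cast h3
  have h2 := hT (X + H) (by omega)
  have h3 : Real.log ((X + H : ℕ) : ℝ) ≤ 1 + Real.log X := by
    have h4 : ((X + H : ℕ) : ℝ) ≤ 2 * X := by
      push_cast
      have : (H : ℝ) ≤ X := by exact_mod_cast hHX
      linarith
    have h5 : Real.log ((X + H : ℕ) : ℝ) ≤ Real.log (2 * X) := by
      apply Real.log_le_log _ h4
      have : (0 : ℝ) < X := by positivity
      push_cast
      positivity
    rw [Real.log_mul (by norm_num) (by positivity)] at h5
    have := Real.log_two_lt_d9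
    linarith
  -- the dilations
  have h4 : ∑ D ∈ range D₀, lg X (fun n => E (n / (D + 1))) ≤
      D₀ * (e / (8 * (A + 1)) * Real.log X + (1 + Real.log (D₀ + 1))) := by
    have h5 : ∀ D ∈ range D₀, lg X (fun n => E (n / (D + 1))) ≤
        e / (8 * (A + 1)) * Real.log X + (1 + Real.log (D₀ + 1)) := by
      intro D hD
      rw [mem_range] at hD
      have h6 := lg_dil X (D + 1) (by omega) E hE0 hE00
      have h7 : Real.log ((D + 1 : ℕ) : ℝ) ≤ Real.log (D₀ + 1) := by
        apply Real.log_le_log (by positivity)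
        push_cast
        have : (D : ℝ) < D₀ := by exact_mod_cast hD
        linarith
      linarith
    refine (sum_le_sum h5).trans ?_
    rw [sum_const, card_range, nsmul_eq_mul]
  have h5 : 2 * D₀ * ∑ D ∈ range D₀, lg X (fun n => E (n / (D + 1))) ≤
      e / 8 * Real.log X + A * (1 + Real.log (D₀ + 1)) := by
    have h6 := mul_le_mul_of_nonneg_left h4 (by positivity : (0 : ℝ) ≤ 2 * D₀)
    refine h6.trans ?_
    have h7 : 2 * (D₀ : ℝ) * (D₀ * (e / (8 * (A + 1)) * Real.log X + (1 + Real.log (D₀ + 1)))) =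
        A * (e / (8 * (A + 1))) * Real.log X + A * (1 + Real.log (D₀ + 1)) := by
      rw [hA]
      ring
    rw [h7]
    have h8 : A * (e / (8 * (A + 1))) ≤ e / 8 := by
      rw [← mul_div_assoc, div_le_div_iff₀ (by positivity) (by norm_num)]
      nlinarith
    have h9 := mul_le_mul_of_nonneg_right h8 (by linarith : (0 : ℝ) ≤ Real.log X)
    linarith
  have h6 : ∑ m ∈ Icc 1 (X + H), ‖L m - dl D₀ c f m‖ ^ 2 / (m : ℝ) ≤
      e / 16 * (1 + Real.log X) + |C| := by
    refine h2.trans ?_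
    have h7 := mul_le_mul_of_nonneg_left h3 (by positivity : (0 : ℝ) ≤ e / 16)
    have h8 := le_abs_self C
    linarith
  have h7 : U * Real.log H ≤ e / 16 * Real.log X := by
    have h8 : 16 * U / e * Real.log H ≤ Real.log X := by
      refine le_trans ?_ hXH
      apply mul_le_mul_of_nonneg_right _ hlH
      have : 0 ≤ 4 * B / e := by positivity
      linarith
    have h9 : U * Real.log H = e / 16 * (16 * U / e * Real.log H) := by
      field_simp
    rw [h9]
    exact mul_le_mul_of_nonneg_left h8 (by positivity)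
  have h8 : B ≤ e / 4 * Real.log X := by
    have h9 : 4 * B / e ≤ Real.log X := by
      have : 0 ≤ 16 * U / e := by positivity
      linarith
    rw [div_le_iff₀ he] at h9
    linarith
  have h9 := mul_le_mul_of_nonneg_left h1 (by norm_num : (0 : ℝ) ≤ 2)
  have h10 : e * Real.log X ≥ 0 := by positivity
  rw [hB] at h8
  have h11 : 2 * (2 * ∑ m ∈ Icc 1 (X + H), ‖L m - dl D₀ c f m‖ ^ 2 / (m : ℝ) +
      U * (1 + Real.log H)) ≤ e / 4 * (1 + Real.log X) + 4 * |C| + 2 * U +
        e / 8 * Real.log X := by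
    nlinarith
  refine (add_le_add (h9.trans h11) h5).trans ?_
  nlinarith

/-- the second reduction: slowly varying unimodular factors, uniform constants -/
theorem red_two {L u : ℕ → ℂ} (hL : ∀ n, ‖L n‖ ≤ 1) (hu : ∀ n, ‖u n‖ = 1) {T : ℝ} (hT : 0 ≤ T)
    (hsl : ∀ n h : ℕ, 1 ≤ n → ‖u (n + h) - u n‖ ≤ T * h / n) (e : ℝ) (he : 0 < e)
    (R X H : ℕ) (hH : 1 ≤ H) (hX : (32 + 16 * T) / e ≤ Real.log X)
    (hXH : (32 + 16 * T) / e * Real.log H ≤ Real.log X)
    (ha : App (fun n => u n * L n) R H X (e / 4)) : App L R H X e := by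
  rw [app_iff] at ha ⊢
  obtain ⟨g, hg, hlg⟩ := ha
  have hHr : (0 : ℝ) < H := by exact_mod_cast hH
  have hlH : 0 ≤ Real.log H := Real.log_nonneg (by exact_mod_cast hH)
  refine ⟨fun n m => (starRingEnd ℂ) (u n) * g n m, fun n => W_smul (hg n) ?_, ?_⟩
  · rw [RCLike.norm_conj, hu]
  have h1 : ∀ n ∈ Icc 1 X, (∑ m ∈ Ioc n (n + H), ‖L m - (starRingEnd ℂ) (u n) * g n m‖ ^ 2) / H ≤
      2 * ((∑ m ∈ Ioc n (n + H), ‖u m * L m - g n m‖ ^ 2) / H) +
        (if n ≤ H then 8 else 4 * (T * H / n)) := by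
    intro n hn
    rw [mem_Icc] at hn
    have hn0 : (0 : ℝ) < n := by exact_mod_cast hn.1
    have h2 : ∀ m ∈ Ioc n (n + H), ‖L m - (starRingEnd ℂ) (u n) * g n m‖ ^ 2 ≤
        2 * ‖u m * L m - g n m‖ ^ 2 + (if n ≤ H then 8 else 4 * (T * H / n)) := by
      intro m hm
      rw [mem_Ioc] at hm
      have h3 : ‖L m - (starRingEnd ℂ) (u n) * g n m‖ = ‖u n * L m - g n m‖ := by
        have h4 : u n * (starRingEnd ℂ) (u n) = 1 := by
          rw [Complex.mul_conj, Complex.normSq_eq_norm_sq, hu]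
          simp
        have h5 : u n * (L m - (starRingEnd ℂ) (u n) * g n m) = u n * L m - g n m := by
          rw [mul_sub, ← mul_assoc, h4, one_mul]
        rw [← h5, norm_mul, hu, one_mul]
      have h4 : u n * L m - g n m = (u m * L m - g n m) + (u n - u m) * L m := by ring
      rw [h3, h4]
      refine (nsq_add _ _).trans ?_
      have h5 : ‖(u n - u m) * L m‖ ≤ ‖u n - u m‖ := by
        rw [norm_mul]
        exact mul_le_of_le_one_right (norm_nonneg _) (hL m)
      have h6 : ‖u n - u m‖ ≤ 2 := by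
        refine (norm_sub_le _ _).trans ?_
        rw [hu, hu]
        norm_num
      have h7 : ‖u n - u m‖ ≤ T * H / n := by
        have h8 := hsl n (m - n) hn.1
        have h9 : n + (m - n) = m := by omega
        rw [h9] at h8
        rw [norm_sub_rev]
        refine h8.trans ?_
        apply div_le_div_of_nonneg_right _ hn0.le
        apply mul_le_mul_of_nonneg_left _ hT
        exact_mod_cast (by omega : m - n ≤ H)
      have h8 : ‖(u n - u m) * L m‖ ^ 2 ≤ ‖u n - u m‖ ^ 2 :=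
        pow_le_pow_left₀ (norm_nonneg _) h5 2
      have h9 := norm_nonneg (u n - u m)
      split_ifs
      · nlinarith
      · nlinarith
    rw [div_le_iff₀ hHr]
    refine (sum_le_sum h2).trans ?_
    rw [sum_add_distrib, ← mul_sum, sum_const, Nat.card_Ioc, nsmul_eq_mul]
    have h3 : n + H - n = H := by omega
    rw [h3]
    apply le_of_eq
    field_simp
  refine (lg_mono h1).trans ?_
  rw [lg_add, lg_mul]
  have h2 : lg X (fun n => if n ≤ H then (8 : ℝ) else 4 * (T * H / n)) ≤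
      8 * (1 + Real.log H) + 4 * T := by
    unfold lg
    have h3 : ∀ n ∈ Icc 1 X, (if n ≤ H then (8 : ℝ) else 4 * (T * H / n)) / n ≤
        (if n ≤ H then 8 * (1 / (n : ℝ)) else 0) +
        (if H < n then 4 * T * H * ((n : ℝ) ^ 2)⁻¹ else 0) := by
      intro n hn
      rw [mem_Icc] at hn
      have hn0 : (0 : ℝ) < n := by exact_mod_cast hn.1
      by_cases hnH : n ≤ H
      · have hnH' : ¬ H < n := by omega
        rw [if_pos hnH, if_pos hnH, if_neg hnH']
        apply le_of_eq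
        ring
      · have hnH' : H < n := by omega
        rw [if_neg hnH, if_neg hnH, if_pos hnH']
        apply le_of_eq
        field_simp
        ring
    refine (sum_le_sum h3).trans ?_
    rw [sum_add_distrib]
    apply add_le_add
    · rw [← sum_filter, ← mul_sum]
      apply mul_le_mul_of_nonneg_left _ (by norm_num)
      refine le_trans ?_ (hs_le H)
      unfold hs
      apply sum_le_sum_of_subset_of_nonneg
      · intro n hn
        rw [mem_filter, mem_Icc] at hn
        rw [mem_Icc]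
        omega
      · intro n _ _
        positivity
    · rw [← sum_filter, ← mul_sum]
      have h4 : ∑ n ∈ (Icc 1 X).filter (fun n => H < n), ((n : ℝ) ^ 2)⁻¹ ≤
          ∑ n ∈ Ioc H (max X H), ((n : ℝ) ^ 2)⁻¹ := by
        apply sum_le_sum_of_subset_of_nonneg
        · intro n hn
          rw [mem_filter, mem_Icc] at hn
          rw [mem_Ioc]
          have := le_max_left X H
          omega
        · intro n _ _
          positivity
      have h5 := sum_Ioc_inv_sq_le_sub (α := ℝ) (k := H) (n := max X H) (by omega)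
        (le_max_right _ _)
      have h6 : (0 : ℝ) ≤ ((max X H : ℕ) : ℝ)⁻¹ := by positivity
      have h7 : ∑ n ∈ (Icc 1 X).filter (fun n => H < n), ((n : ℝ) ^ 2)⁻¹ ≤ (H : ℝ)⁻¹ := by
        linarith
      calc 4 * T * H * ∑ n ∈ (Icc 1 X).filter (fun n => H < n), ((n : ℝ) ^ 2)⁻¹
          ≤ 4 * T * H * (H : ℝ)⁻¹ := mul_le_mul_of_nonneg_left h7 (by positivity)
        _ = 4 * T := by field_simp
  have h3 : (32 + 16 * T) ≤ e * Real.log X := by
    rw [div_le_iff₀ he] at hX
    linarith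
  have h4 : 32 * Real.log H ≤ e * Real.log X := by
    have h5 : (32 + 16 * T) * Real.log H ≤ e * Real.log X := by
      have h6 : (32 + 16 * T) * Real.log H = e * ((32 + 16 * T) / e * Real.log H) := by
        field_simp
      rw [h6]
      exact mul_le_mul_of_nonneg_left hXH he.le
    nlinarith [mul_nonneg hT hlH]
  nlinarith

/-- the conclusion of theorem (G), uniformly for the functions of a class -/
def UFU (P : (ℕ → ℂ) → Prop) : Prop := ∀ R : ℕ → ℕ, ∃ K : ℕ, 1 ≤ K ∧ ∀ X H : ℕ, K ≤ H →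
  H ^ K ≤ X → ∀ f, P f → ∃ j : ℕ, 1 ≤ j ∧ j ≤ K ∧ ¬ App f (R j) H X (1 / j)

/-- if a function of the class is almost periodic on windows, then `g`, too -/
def RedU (P : (ℕ → ℂ) → Prop) (g : ℕ → ℂ) : Prop := ∀ e : ℝ, 0 < e → ∃ e' : ℝ, 0 < e' ∧
  ∃ (D : ℕ) (C : ℝ), ∀ f, P f → ∀ R X H : ℕ, 1 ≤ H → C ≤ Real.log X →
    C * Real.log H ≤ Real.log X → App f R H X e' → App g (D * R) H X e

/-- the hypothesis of the transfer: up to a slowly varying factor and a small mean square, `g` is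
a sum of finitely many dilates of `f` with periodic coefficients -/
def TrU (P : (ℕ → ℂ) → Prop) (g : ℕ → ℂ) : Prop := ∀ ε : ℝ, 0 < ε →
  ∃ (D₀ k : ℕ) (C T : ℝ), 1 ≤ k ∧ 0 ≤ T ∧ ∀ f, P f → ∃ (u : ℕ → ℂ) (c : ℕ → ℕ → ℂ),
    (∀ n, ‖u n‖ = 1) ∧ (∀ n h : ℕ, 1 ≤ n → ‖u (n + h) - u n‖ ≤ T * h / n) ∧
    (∀ D m, ‖c D m‖ ≤ 1) ∧ (∀ D m, c D (m + k) = c D m) ∧
    ∀ Y : ℕ, 1 ≤ Y → ∑ n ∈ Icc 1 Y, ‖u n * g n - dl D₀ c f n‖ ^ 2 / n ≤ ε * Real.log Y + C

theorem redU_of {P : (ℕ → ℂ) → Prop} {g : ℕ → ℂ} (hg : ∀ n, ‖g n‖ ≤ 1)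
    (hP : ∀ f, P f → ∀ n, ‖f n‖ ≤ 1) (h : TrU P g) : RedU P g := by
  intro e he
  obtain ⟨D₀, k, C, T, hk, hT, hh⟩ := h (e / 4 / 16) (by positivity)
  obtain ⟨e', he', D, C', h1⟩ := red_one (e / 4) (by positivity) D₀ k C hk
  refine ⟨e', he', D, max C' ((32 + 16 * T) / e), fun f hf R X H hH hX hXH ha => ?_⟩
  obtain ⟨u, c, hu, hsl, hc1, hcp, hY⟩ := hh f hf
  have hlH : 0 ≤ Real.log H := Real.log_nonneg (by exact_mod_cast hH)
  have h2 := h1 (fun n => u n * g n) f c (fun n => by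
    rw [norm_mul, hu, one_mul]
    exact hg n) (hP f hf) hc1 hcp hY R X H hH ((le_max_left _ _).trans hX)
    ((mul_le_mul_of_nonneg_right (le_max_left _ _) hlH).trans hXH) ha
  exact red_two hg hu hT hsl e he _ X H hH ((le_max_right _ _).trans hX)
    ((mul_le_mul_of_nonneg_right (le_max_right _ _) hlH).trans hXH) h2

/-- the transfer, uniformly -/
theorem UFU.of_red {P : (ℕ → ℂ) → Prop} {g : ℕ → ℂ} (h : RedU P g) (hg : UF g) : UFU P := by
  intro R
  have hc : ∀ j : ℕ, ∃ (J D N : ℕ), 1 ≤ J ∧ ∀ f, P f → ∀ R X H : ℕ, 1 ≤ H → 1 ≤ X →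
      (N : ℝ) ≤ Real.log X → (N : ℝ) * Real.log H ≤ Real.log X →
      App f R H X (1 / J) → 1 ≤ j → App g (D * R) H X (1 / j) := by
    intro j
    rcases Nat.eq_zero_or_pos j with h0 | h0
    · exact ⟨1, 1, 1, le_rfl, fun _ _ _ _ _ _ _ _ _ _ hj => by omega⟩
    · obtain ⟨e', he', D, C, hh⟩ := h (1 / (j : ℝ)) (by positivity)
      refine ⟨⌈1 / e'⌉₊ + 1, D, ⌈C⌉₊, by omega, fun f hf R X H hH hX h1 h2 ha _ => ?_⟩
      have hlH : 0 ≤ Real.log H := Real.log_nonneg (by exact_mod_cast hH)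
      refine hh f hf R X H hH ((Nat.le_ceil C).trans h1)
        ((mul_le_mul_of_nonneg_right (Nat.le_ceil C) hlH).trans h2) (app_mono ha hX ?_)
      rw [one_div, inv_le_comm₀ (by positivity) he']
      have := Nat.le_ceil (1 / e')
      rw [one_div] at this
      push_cast
      rw [one_div]
      linarith
  choose J D N hJ hh using hc
  obtain ⟨K₂, hK₂, hU⟩ := hg (fun j => D j * R (J j))
  refine ⟨3 + K₂ + ∑ j ∈ range (K₂ + 1), (J j + N j), by omega, fun X H hH hX f hf => ?_⟩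
  have hS : ∀ j ≤ K₂, J j + N j ≤ ∑ j ∈ range (K₂ + 1), (J j + N j) := fun j hj =>
    single_le_sum (f := fun j => J j + N j) (fun _ _ => Nat.zero_le _)
      (mem_range.2 (by omega))
  have hH3 : 3 ≤ H := by omega
  have hX2 : H ^ K₂ ≤ X := (Nat.pow_le_pow_right (by omega) (by omega)).trans hX
  obtain ⟨j, hj1, hj2, hj3⟩ := hU X H (by omega) hX2
  by_contra hcon
  push Not at hcon
  apply hj3
  have hX1 : 1 ≤ X := le_trans (Nat.one_le_pow _ _ (by omega)) hX2
  have hlH1 : 1 ≤ Real.log H := by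
    rw [Real.le_log_iff_exp_le (by exact_mod_cast (by omega : 0 < H))]
    have h1 := Real.exp_one_lt_d9
    have h2 : (3 : ℝ) ≤ H := by exact_mod_cast hH3
    linarith
  have hK : ((3 + K₂ + ∑ j ∈ range (K₂ + 1), (J j + N j) : ℕ) : ℝ) * Real.log H ≤ Real.log X := by
    rw [← Real.log_pow]
    apply Real.log_le_log (by positivity)
    exact_mod_cast hX
  have hNj : ((N j : ℕ) : ℝ) ≤ ((3 + K₂ + ∑ j ∈ range (K₂ + 1), (J j + N j) : ℕ) : ℝ) := by
    have := hS j hj2
    exact_mod_cast (by omega : N j ≤ 3 + K₂ + ∑ j ∈ range (K₂ + 1), (J j + N j))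
  have hN2 : (N j : ℝ) * Real.log H ≤ Real.log X :=
    (mul_le_mul_of_nonneg_right hNj (by linarith)).trans hK
  have hN1 : (N j : ℝ) ≤ Real.log X := by
    refine le_trans ?_ hN2
    exact le_mul_of_one_le_right (Nat.cast_nonneg _) hlH1
  refine hh j f hf (R (J j)) X H (by omega) hX1 hN1 hN2 (hcon (J j) (hJ j) ?_) hj1
  have := hS j hj2
  omega

end Pool.Agent.H83.TR
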