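import Pool.Agent.H83.TR.Mul

/-!
# Transfer of theorem (G), MP_c59857_nt: the class of multiplicative functions
-/

set_option autoImplicit false

namespace Pool.Agent.H83.TR

open Finset Pool.Agent.H6.N4D Pool.Agent.H93.EB

/-- `f` is bounded by one, multiplicative on the squarefree numbers and close to `λ χ n ^ (i t)`
at the primes -/
structure Cl (f : ℕ → ℂ) (k : ℕ) (χ : DirichletCharacter ℂ k) (t : ℝ) : Prop where
  bd : ∀ n, ‖f n‖ ≤ 1
  mul : ∀ n : ℕ, Squarefree n → f n = ∏ p ∈ n.primeFactors, f p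
  sm : Summable (fun p : Nat.Primes =>
    ‖f p + χ ((p : ℕ) : ZMod k) * ut t p‖ / ((p : ℕ) : ℝ))

/-- `conj χ(n) f(n)` -/
noncomputable def Bf (f : ℕ → ℂ) {k : ℕ} (χ : DirichletCharacter ℂ k) (n : ℕ) : ℂ :=
  (starRingEnd ℂ) (χ (n : ZMod k)) * f n

/-- the distances at the primes -/
noncomputable def ap (f : ℕ → ℂ) {k : ℕ} (χ : DirichletCharacter ℂ k) (t : ℝ) (q : ℕ) : ℝ :=
  if q.Prime then ‖f q + χ (q : ZMod k) * ut t q‖ else 0

lemma ap_nonneg (f : ℕ → ℂ) {k : ℕ} (χ : DirichletCharacter ℂ k) (t : ℝ) (q : ℕ) :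
    0 ≤ ap f χ t q := by
  unfold ap
  split_ifs
  · exact norm_nonneg _
  · exact le_rfl

lemma norm_Bf {f : ℕ → ℂ} {k : ℕ} {χ : DirichletCharacter ℂ k} {t : ℝ} (h : Cl f k χ t) (n : ℕ) :
    ‖Bf f χ n‖ ≤ 1 := by
  unfold Bf
  rw [norm_mul, RCLike.norm_conj]
  exact mul_le_one₀ (χ.norm_le_one _) (norm_nonneg _) (h.bd n)

lemma ap_summable {f : ℕ → ℂ} {k : ℕ} {χ : DirichletCharacter ℂ k} {t : ℝ} (h : Cl f k χ t) :
    Summable (fun q : ℕ => ap f χ t q / q) := by
  have h1 := (summable_subtype_iff_indicator (s := {p : ℕ | p.Prime})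
    (f := fun q : ℕ => ‖f q + χ (q : ZMod k) * ut t q‖ / (q : ℝ))).1 h.sm
  refine h1.congr fun q => ?_
  unfold ap
  by_cases hq : q.Prime
  · rw [if_pos hq, Set.indicator_of_mem (by exact hq)]
  · rw [if_neg hq, Set.indicator_of_notMem (by exact hq), zero_div]

/-- products over the prime factors -/
lemma Af_prod (t : ℝ) (s : Finset ℕ) (hs : ∀ p ∈ s, p ≠ 0) : Af t (∏ p ∈ s, p) = ∏ p ∈ s, Af t p := by
  classical
  induction s using Finset.induction_on with
  | empty => simp [Af_one]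
  | insert i s hi ih =>
    rw [prod_insert hi, prod_insert hi, Af_mul t (hs i (mem_insert_self i s))
      (prod_ne_zero_iff.2 fun p hp => hs p (mem_insert_of_mem hp)),
      ih fun p hp => hs p (mem_insert_of_mem hp)]

lemma diff_le {f : ℕ → ℂ} {k : ℕ} {χ : DirichletCharacter ℂ k} {t : ℝ} (h : Cl f k χ t)
    {m : ℕ} (hm : m ≠ 0) (hmk : Nat.Coprime m k) : ‖Af t m - Bf f χ m‖ ≤
      ∑ p ∈ m.primeFactors, (ap f χ t p + if p ^ 2 ∣ m then 2 else 0) := by
  have h0 : ∀ p ∈ m.primeFactors, 0 ≤ (ap f χ t p + if p ^ 2 ∣ m then 2 else 0) := fun p _ =>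
    add_nonneg (ap_nonneg f χ t p) (by split_ifs <;> norm_num)
  by_cases hsq : Squarefree m
  · have hA : Af t m = ∏ p ∈ m.primeFactors, Af t p := by
      rw [← Af_prod t m.primeFactors fun p hp => (Nat.prime_of_mem_primeFactors hp).ne_zero,
        Nat.prod_primeFactors_of_squarefree hsq]
    have hB : Bf f χ m = ∏ p ∈ m.primeFactors, Bf f χ p := by
      unfold Bf
      rw [prod_mul_distrib, ← h.mul m hsq, ← map_prod, ← map_prod]
      congr 3
      rw [← Nat.cast_prod, Nat.prod_primeFactors_of_squarefree hsq]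
    rw [hA, hB]
    refine (norm_prod_sub _ _ _ (fun i _ => (norm_Af t _).le) (fun i _ => norm_Bf h _)).trans ?_
    refine sum_le_sum fun p hp => ?_
    have hpp := Nat.prime_of_mem_primeFactors hp
    have hpd := Nat.dvd_of_mem_primeFactors hp
    have h1 : (0 : ℝ) ≤ (if p ^ 2 ∣ m then 2 else 0) := by split_ifs <;> norm_num
    refine le_trans (le_of_eq ?_) (le_add_of_nonneg_right h1)
    unfold ap
    rw [if_pos hpp]
    have hu : IsUnit ((p : ℕ) : ZMod k) := by
      rw [ZMod.isUnit_iff_coprime]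
      exact Nat.Coprime.coprime_dvd_left hpd hmk
    have h2 : ‖χ ((p : ℕ) : ZMod k)‖ = 1 := DirichletCharacter.unit_norm_eq_one χ hu.unit
    have h3 : χ ((p : ℕ) : ZMod k) * (starRingEnd ℂ) (χ ((p : ℕ) : ZMod k)) = 1 := by
      rw [Complex.mul_conj, Complex.normSq_eq_norm_sq, h2]
      simp
    have h5 : f p + χ (p : ZMod k) * ut t p =
        -(χ (p : ZMod k) * (Af t p - Bf f χ p)) := by
      unfold Af Bf
      rw [Lio1_prime hpp, mul_sub, ← mul_assoc, ← mul_assoc, h3]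
      ring
    rw [h5, norm_neg, norm_mul, h2, one_mul]
  · rw [Nat.squarefree_iff_prime_squarefree] at hsq
    push Not at hsq
    obtain ⟨p, hp, hpm⟩ := hsq
    have h1 : ‖Af t m - Bf f χ m‖ ≤ 2 := by
      refine (norm_sub_le _ _).trans ?_
      have := norm_Bf h m
      rw [norm_Af]
      linarith
    refine h1.trans ?_
    have hpm' : p ^ 2 ∣ m := by rw [pow_two]; exact hpm
    have hmem : p ∈ m.primeFactors :=
      Nat.mem_primeFactors.2 ⟨hp, (Dvd.intro p rfl).trans hpm, hm⟩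
    have h2 := single_le_sum h0 hmem
    rw [if_pos hpm'] at h2
    have := ap_nonneg f χ t p
    linarith

open Classical in
/-- the coefficients -/
noncomputable def cc {k : ℕ} (χ : DirichletCharacter ℂ k) (t : ℝ) (w D m : ℕ) : ℂ :=
  if Sm w (D + 1) ∧ Nat.Coprime m w.factorial then
    Af t (D + 1) * (starRingEnd ℂ) (χ (m : ZMod k)) else 0

lemma norm_cc {k : ℕ} (χ : DirichletCharacter ℂ k) (t : ℝ) (w D m : ℕ) :
    ‖cc χ t w D m‖ ≤ 1 := by
  unfold cc
  split_ifs
  · rw [norm_mul, norm_Af, RCLike.norm_conj, one_mul]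
    exact χ.norm_le_one _
  · simp

lemma per_cc {k : ℕ} (χ : DirichletCharacter ℂ k) (t : ℝ) (w D m : ℕ) :
    cc χ t w D (m + k * w.factorial) = cc χ t w D m := by
  unfold cc
  have h1 : ((m + k * w.factorial : ℕ) : ZMod k) = (m : ZMod k) := by
    push_cast
    rw [ZMod.natCast_self]
    ring
  rw [h1]
  have h2 := Nat.coprime_add_mul_right_left m w.factorial k
  by_cases hc : Sm w (D + 1) ∧ Nat.Coprime m w.factorial
  · rw [if_pos hc, if_pos ⟨hc.1, h2.2 hc.2⟩]
  · rw [if_neg hc, if_neg (fun hcc => hc ⟨hcc.1, h2.1 hcc.2⟩)]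

lemma dl_eval {f : ℕ → ℂ} {k : ℕ} (χ : DirichletCharacter ℂ k) (t : ℝ) (w D₀ D m : ℕ)
    (hD : 1 ≤ D) (hS : Sm w D) (hm : Nat.Coprime m w.factorial) :
    dl D₀ (cc χ t w) f (D * m) = if D ≤ D₀ then Af t D * Bf f χ m else 0 := by
  unfold dl
  have h0 : ∀ D' ∈ range D₀, D' + 1 ≠ D → (if (D' + 1) ∣ D * m then
      cc χ t w D' (D * m / (D' + 1)) * f (D * m / (D' + 1)) else 0) = 0 := by
    intro D' _ hne
    split_ifs with hd
    · have : cc χ t w D' (D * m / (D' + 1)) = 0 := by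
        unfold cc
        apply if_neg
        rintro ⟨h1, h2⟩
        apply hne
        refine fac_unique (w := w) (m := D * m / (D' + 1)) (m' := m) ?_ h1 hS h2 hm
        exact Nat.mul_div_cancel' hd
      rw [this, zero_mul]
    · rfl
  by_cases hDD : D ≤ D₀
  · rw [if_pos hDD, sum_eq_single_of_mem (D - 1) (mem_range.2 (by omega))]
    · have h1 : D - 1 + 1 = D := by omega
      rw [h1, if_pos (Dvd.intro m rfl), Nat.mul_div_cancel_left m (by omega)]
      unfold cc Bf
      rw [h1, if_pos ⟨hS, hm⟩]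
      ring
    · intro D' hD' hne
      exact h0 D' hD' (by omega)
  · rw [if_neg hDD]
    refine sum_eq_zero fun D' hD' => h0 D' hD' ?_
    rw [mem_range] at hD'
    omega

open Classical in
lemma pt_le {f : ℕ → ℂ} {k : ℕ} {χ : DirichletCharacter ℂ k} {t : ℝ} (h : Cl f k χ t)
    (w D₀ Y n : ℕ) (hk : 1 ≤ k) (hkw : k ≤ w) (hn1 : 1 ≤ n) (hnY : n ≤ Y) :
    ‖Af t n - dl D₀ (cc χ t w) f n‖ ^ 2 ≤
      ∑ D ∈ Ioc D₀ Y, (if D ∣ n then (if D ≠ 0 ∧ Sm w D then (1 : ℝ) else 0) else 0) +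
      2 * ∑ q ∈ Ioc w Y, ((if q ∣ n then ap f χ t q else 0) + (if q ^ 2 ∣ n then 2 else 0)) := by
  obtain ⟨D, m, hDm, hD, hm, hS, hc⟩ := exists_fac w n hn1
  have hA0 : 0 ≤ ∑ D ∈ Ioc D₀ Y, (if D ∣ n then (if D ≠ 0 ∧ Sm w D then (1 : ℝ) else 0) else 0) :=
    sum_nonneg fun D _ => by split_ifs <;> norm_num
  have hB0 : 0 ≤ ∑ q ∈ Ioc w Y, ((if q ∣ n then ap f χ t q else 0) +
      (if q ^ 2 ∣ n then (2 : ℝ) else 0)) :=
    sum_nonneg fun q _ => add_nonneg (by split_ifs <;> first | exact ap_nonneg f χ t q | exact le_rfl)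
      (by split_ifs <;> norm_num)
  have hev := dl_eval (f := f) χ t w D₀ D m hD hS hc
  rw [← hDm] at hev
  rw [hev]
  by_cases hDD : D ≤ D₀
  · rw [if_pos hDD]
    have h1 : Af t n - Af t D * Bf f χ m = Af t D * (Af t m - Bf f χ m) := by
      rw [hDm, Af_mul t (by omega) (by omega)]
      ring
    rw [h1, norm_mul, norm_Af, one_mul]
    have hmk : Nat.Coprime m k :=
      Nat.Coprime.coprime_dvd_right (Nat.dvd_factorial (by omega) hkw) hc
    have h2 := diff_le h (m := m) (by omega) hmk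
    have h3 : ‖Af t m - Bf f χ m‖ ≤ 2 := by
      refine (norm_sub_le _ _).trans ?_
      have := norm_Bf h m
      rw [norm_Af]
      linarith
    have h4 : ∑ p ∈ m.primeFactors, (ap f χ t p + if p ^ 2 ∣ m then 2 else 0) ≤
        ∑ q ∈ Ioc w Y, ((if q ∣ n then ap f χ t q else 0) + (if q ^ 2 ∣ n then (2 : ℝ) else 0)) := by
      have h5 : ∀ p ∈ m.primeFactors, (ap f χ t p + if p ^ 2 ∣ m then 2 else 0) ≤
          ((if p ∣ n then ap f χ t p else 0) + (if p ^ 2 ∣ n then (2 : ℝ) else 0)) := by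
        intro p hp
        have hpd := Nat.dvd_of_mem_primeFactors hp
        have hpn : p ∣ n := by rw [hDm]; exact dvd_mul_of_dvd_right hpd D
        rw [if_pos hpn]
        by_cases h6 : p ^ 2 ∣ m
        · have h7 : p ^ 2 ∣ n := by rw [hDm]; exact dvd_mul_of_dvd_right h6 D
          rw [if_pos h6, if_pos h7]
        · rw [if_neg h6]
          have : (0 : ℝ) ≤ (if p ^ 2 ∣ n then (2 : ℝ) else 0) := by split_ifs <;> norm_num
          linarith
      refine (sum_le_sum h5).trans ?_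
      apply sum_le_sum_of_subset_of_nonneg
      · intro p hp
        have hpp := Nat.prime_of_mem_primeFactors hp
        have hpd := Nat.dvd_of_mem_primeFactors hp
        rw [mem_Ioc]
        constructor
        · by_contra hcon
          push Not at hcon
          have h6 : p ∣ w.factorial := (hpp.dvd_factorial).2 hcon
          exact absurd hc (Nat.Prime.not_coprime_iff_dvd.2 ⟨p, hpp, hpd, h6⟩)
        · have h6 : p ≤ m := Nat.le_of_dvd (by omega) hpd
          have h7 : m ≤ D * m := Nat.le_mul_of_pos_left m (by omega)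
          omega
      · intro q _ _
        exact add_nonneg (by split_ifs <;> first | exact ap_nonneg f χ t q | exact le_rfl)
          (by split_ifs <;> norm_num)
    have h5 := norm_nonneg (Af t m - Bf f χ m)
    nlinarith
  · rw [if_neg hDD, sub_zero, norm_Af]
    have hDY : D ≤ Y := by
      have h7 : D ≤ D * m := Nat.le_mul_of_pos_right D (by omega)
      omega
    have h1 : (1 : ℝ) ≤ ∑ D ∈ Ioc D₀ Y,
        (if D ∣ n then (if D ≠ 0 ∧ Sm w D then (1 : ℝ) else 0) else 0) := by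
      have h2 := single_le_sum (s := Ioc D₀ Y)
        (f := fun D => (if D ∣ n then (if D ≠ 0 ∧ Sm w D then (1 : ℝ) else 0) else 0))
        (fun D _ => by split_ifs <;> norm_num) (a := D)
        (mem_Ioc.2 ⟨by omega, hDY⟩)
      rw [if_pos (by rw [hDm]; exact Dvd.intro m rfl), if_pos ⟨by omega, hS⟩] at h2
      exact h2
    linarith

/-- the class satisfies the first hypothesis -/
theorem trA_cl {f : ℕ → ℂ} {k : ℕ} {χ : DirichletCharacter ℂ k} {t : ℝ} (hk : 1 ≤ k)
    (h : Cl f k χ t) : TrA (Af t) f := by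
  classical
  intro ε hε
  -- the parameters
  obtain ⟨w₁, hw₁⟩ := tail_small (a := fun q : ℕ => ap f χ t q / q)
    (fun q => div_nonneg (ap_nonneg f χ t q) (Nat.cast_nonneg _)) (ap_summable h)
    (δ := ε / 8) (by positivity)
  have hsq : Summable (fun q : ℕ => 1 / (q : ℝ) ^ 2) :=
    Real.summable_one_div_nat_pow.2 (by norm_num)
  obtain ⟨w₂, hw₂⟩ := tail_small (a := fun q : ℕ => 1 / (q : ℝ) ^ 2) (fun q => by positivity) hsq
    (δ := ε / 8) (by positivity)
  set w := max k (max w₁ w₂) with hw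
  obtain ⟨D₀, hD₀⟩ := tail_small (a := fun D : ℕ => if D ≠ 0 ∧ Sm w D then (1 : ℝ) / D else 0)
    (fun D => by split_ifs <;> positivity) (smooth_summable w)
    (δ := ε / 8) (by positivity)
  refine ⟨D₀, k * w.factorial, cc χ t w, ε, Nat.mul_pos hk (Nat.factorial_pos _),
    norm_cc χ t w, per_cc χ t w, fun Y hY => ?_⟩
  have hlY : 0 ≤ Real.log Y := Real.log_nonneg (by exact_mod_cast hY)
  have h1 : ∀ n ∈ Icc 1 Y, ‖Af t n - dl D₀ (cc χ t w) f n‖ ^ 2 / (n : ℝ) ≤
      ∑ D ∈ Ioc D₀ Y, (if D ≠ 0 ∧ Sm w D then (1 : ℝ) else 0) * (if D ∣ n then 1 / (n : ℝ) else 0) +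
      2 * ∑ q ∈ Ioc w Y, (ap f χ t q * (if q ∣ n then 1 / (n : ℝ) else 0) +
        2 * (if q ^ 2 ∣ n then 1 / (n : ℝ) else 0)) := by
    intro n hn
    rw [mem_Icc] at hn
    have hn0 : (0 : ℝ) < n := by exact_mod_cast hn.1
    have h2 := pt_le h w D₀ Y n hk (le_max_left _ _) hn.1 hn.2
    have h3 := div_le_div_of_nonneg_right h2 hn0.le
    refine h3.trans (le_of_eq ?_)
    rw [add_div, mul_div_assoc, sum_div, sum_div]
    congr 1
    · refine sum_congr rfl fun D _ => ?_
      by_cases hd : D ∣ n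
      · rw [if_pos hd, if_pos hd]
        ring
      · rw [if_neg hd, if_neg hd]
        ring
    · congr 1
      refine sum_congr rfl fun q _ => ?_
      rw [add_div]
      congr 1
      · by_cases hd : q ∣ n
        · rw [if_pos hd, if_pos hd]
          ring
        · rw [if_neg hd, if_neg hd]
          ring
      · by_cases hd : q ^ 2 ∣ n
        · rw [if_pos hd, if_pos hd]
          ring
        · rw [if_neg hd, if_neg hd]
          ring
  refine (sum_le_sum h1).trans ?_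
  rw [sum_add_distrib, ← mul_sum, sum_comm, sum_comm (s := Icc 1 Y) (t := Ioc w Y)]
  set M : ℝ := 1 + Real.log Y with hM
  have hM0 : 0 ≤ M := by linarith
  have h2 : ∑ D ∈ Ioc D₀ Y, ∑ n ∈ Icc 1 Y,
      (if D ≠ 0 ∧ Sm w D then (1 : ℝ) else 0) * (if D ∣ n then 1 / (n : ℝ) else 0) ≤
      ε / 8 * M := by
    have h3 : ∀ D ∈ Ioc D₀ Y, ∑ n ∈ Icc 1 Y,
        (if D ≠ 0 ∧ Sm w D then (1 : ℝ) else 0) * (if D ∣ n then 1 / (n : ℝ) else 0) ≤
        (if D ≠ 0 ∧ Sm w D then (1 : ℝ) / D else 0) * M := by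
      intro D hD
      rw [mem_Ioc] at hD
      rw [← mul_sum]
      by_cases hc : D ≠ 0 ∧ Sm w D
      · rw [if_pos hc, if_pos hc, one_mul]
        exact sum_dvd Y D (by omega) hY
      · rw [if_neg hc, if_neg hc, zero_mul, zero_mul]
    refine (sum_le_sum h3).trans ?_
    rw [← sum_mul]
    exact mul_le_mul_of_nonneg_right (hD₀ D₀ le_rfl Y) hM0
  have h4 : ∑ q ∈ Ioc w Y, ∑ n ∈ Icc 1 Y, (ap f χ t q * (if q ∣ n then 1 / (n : ℝ) else 0) +
        2 * (if q ^ 2 ∣ n then 1 / (n : ℝ) else 0)) ≤ ε / 8 * M + 2 * (ε / 8 * M) := by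
    have h5 : ∀ q ∈ Ioc w Y, ∑ n ∈ Icc 1 Y, (ap f χ t q * (if q ∣ n then 1 / (n : ℝ) else 0) +
        2 * (if q ^ 2 ∣ n then 1 / (n : ℝ) else 0)) ≤
        ap f χ t q / q * M + 2 * (1 / (q : ℝ) ^ 2 * M) := by
      intro q hq
      rw [mem_Ioc] at hq
      rw [sum_add_distrib, ← mul_sum, ← mul_sum]
      apply add_le_add
      · have h6 := mul_le_mul_of_nonneg_left (sum_dvd Y q (by omega) hY) (ap_nonneg f χ t q)
        refine h6.trans (le_of_eq ?_)
        ring
      · apply mul_le_mul_of_nonneg_left _ (by norm_num)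
        have h6 := sum_dvd Y (q ^ 2) (Nat.pow_pos (by omega)) hY
        push_cast at h6
        exact h6
    refine (sum_le_sum h5).trans ?_
    rw [sum_add_distrib, ← sum_mul, ← mul_sum, ← sum_mul]
    apply add_le_add
    · exact mul_le_mul_of_nonneg_right (hw₁ w ((le_max_left _ _).trans (le_max_right _ _)) Y) hM0
    · apply mul_le_mul_of_nonneg_left _ (by norm_num)
      exact mul_le_mul_of_nonneg_right (hw₂ w ((le_max_right _ _).trans (le_max_right _ _)) Y) hM0
  have h5 : 0 ≤ ε * M := by positivity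
  have h6 : ε * M = ε * Real.log Y + ε := by rw [hM]; ring
  linarith

/-- every function of the class reduces Liouville's function -/
theorem red_cl {f : ℕ → ℂ} {k : ℕ} {χ : DirichletCharacter ℂ k} {t : ℝ} (hk : 1 ≤ k)
    (h : Cl f k χ t) : Red f Lio1 := by
  have h1 := red_trA (fun n => (norm_Af t n).le) h.bd (trA_cl hk h)
  have h2 : Red (Af t) Lio1 := red_slow (fun n => (norm_Lio1 n).le) (norm_ut t) (abs_nonneg t)
    (ut_slow t)
  exact h1.trans h2

/-- the conclusion of theorem (G) for the whole class -/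
theorem uf_cl (hU : UF Lio1) {f : ℕ → ℂ} {k : ℕ} {χ : DirichletCharacter ℂ k} {t : ℝ} (hk : 1 ≤ k)
    (h : Cl f k χ t) : UF f :=
  UF.of_red (red_cl hk h) hU

end Pool.Agent.H83.TR
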