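import Pool.Agent.H83.TR.W

/-!
# Transfer of theorem (G), MP_c59857_nt: approximation on windows, reductions
-/

set_option autoImplicit false

namespace Pool.Agent.H83.TR

open Finset Pool.Agent.H6.N4D Pool.Agent.H93.EB

/-- `f` is, in the logarithmic mean over the windows of length `H` up to `X`, within `e` (mean
square) of sums of `R` exponentials -/
def App (f : ℕ → ℂ) (R H X : ℕ) (e : ℝ) : Prop :=
  ∃ (b : ℕ → ℕ → ℂ) (β : ℕ → ℕ → ℝ), (∀ n r, ‖b n r‖ ≤ 1) ∧
    lg X (fun n => (∑ m ∈ Ioc n (n + H),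
      ‖f m - ∑ r ∈ range R, b n r * ee (β n r * m)‖ ^ 2) / H) ≤ e * Real.log X

/-- the conclusion of theorem (G) for the function `f` -/
def UF (f : ℕ → ℂ) : Prop := ∀ R : ℕ → ℕ, ∃ K : ℕ, 1 ≤ K ∧ ∀ X H : ℕ, K ≤ H → H ^ K ≤ X →
  ∃ j : ℕ, 1 ≤ j ∧ j ≤ K ∧ ¬ App f (R j) H X (1 / j)

/-- if `f` is almost periodic on windows, then `g`, too -/
def Red (f g : ℕ → ℂ) : Prop := ∀ e : ℝ, 0 < e → ∃ e' : ℝ, 0 < e' ∧ ∃ (D : ℕ) (C : ℝ),
  ∀ R X H : ℕ, 1 ≤ H → C ≤ Real.log X → C * Real.log H ≤ Real.log X →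
    App f R H X e' → App g (D * R) H X e

lemma app_iff (f : ℕ → ℂ) (R H X : ℕ) (e : ℝ) : App f R H X e ↔
    ∃ g : ℕ → ℕ → ℂ, (∀ n, W R (g n)) ∧
      lg X (fun n => (∑ m ∈ Ioc n (n + H), ‖f m - g n m‖ ^ 2) / H) ≤ e * Real.log X := by
  constructor
  · rintro ⟨b, β, hb, h⟩
    exact ⟨fun n m => ∑ r ∈ range R, b n r * ee (β n r * m),
      fun n => ⟨b n, β n, hb n, fun m => rfl⟩, h⟩
  · rintro ⟨g, hg, h⟩
    choose b β hb hh using hg
    refine ⟨b, β, hb, ?_⟩
    have : (fun n => (∑ m ∈ Ioc n (n + H),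
        ‖f m - ∑ r ∈ range R, b n r * ee (β n r * m)‖ ^ 2) / H) =
        (fun n => (∑ m ∈ Ioc n (n + H), ‖f m - g n m‖ ^ 2) / (H : ℝ)) := by
      funext n
      congr 1
      refine sum_congr rfl fun m _ => ?_
      rw [hh n m]
    rw [this]
    exact h

lemma app_mono {f : ℕ → ℂ} {R H X : ℕ} {e e' : ℝ} (h : App f R H X e)
    (hX : 1 ≤ X) (he : e ≤ e') : App f R H X e' := by
  obtain ⟨b, β, hb, h⟩ := h
  refine ⟨b, β, hb, h.trans ?_⟩
  exact mul_le_mul_of_nonneg_right he (Real.log_nonneg (by exact_mod_cast hX))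

lemma Red.trans {f g h : ℕ → ℂ} (h1 : Red f g) (h2 : Red g h) : Red f h := by
  intro e he
  obtain ⟨e₁, he₁, D₁, C₁, H₁⟩ := h2 e he
  obtain ⟨e₂, he₂, D₂, C₂, H₂⟩ := h1 e₁ he₁
  refine ⟨e₂, he₂, D₁ * D₂, max C₁ C₂, fun R X H hH hC hCH ha => ?_⟩
  have hlH : 0 ≤ Real.log H := Real.log_nonneg (by exact_mod_cast hH)
  have h3 := H₂ R X H hH ((le_max_right _ _).trans hC)
    ((mul_le_mul_of_nonneg_right (le_max_right _ _) hlH).trans hCH) ha
  have h4 := H₁ _ X H hH ((le_max_left _ _).trans hC)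
    ((mul_le_mul_of_nonneg_right (le_max_left _ _) hlH).trans hCH) h3
  rwa [mul_assoc]

/-- the transfer -/
theorem UF.of_red {f g : ℕ → ℂ} (h : Red f g) (hg : UF g) : UF f := by
  intro R
  have hc : ∀ j : ℕ, ∃ (J D N : ℕ), 1 ≤ J ∧ ∀ R X H : ℕ, 1 ≤ H → 1 ≤ X →
      (N : ℝ) ≤ Real.log X → (N : ℝ) * Real.log H ≤ Real.log X →
      App f R H X (1 / J) → 1 ≤ j → App g (D * R) H X (1 / j) := by
    intro j
    rcases Nat.eq_zero_or_pos j with h0 | h0
    · exact ⟨1, 1, 1, le_rfl, fun _ _ _ _ _ _ _ _ hj => by omega⟩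
    · obtain ⟨e', he', D, C, hh⟩ := h (1 / (j : ℝ)) (by positivity)
      refine ⟨⌈1 / e'⌉₊ + 1, D, ⌈C⌉₊, by omega, fun R X H hH hX h1 h2 ha _ => ?_⟩
      have hlH : 0 ≤ Real.log H := Real.log_nonneg (by exact_mod_cast hH)
      refine hh R X H hH ((Nat.le_ceil C).trans h1)
        ((mul_le_mul_of_nonneg_right (Nat.le_ceil C) hlH).trans h2) (app_mono ha hX ?_)
      rw [one_div, inv_le_comm₀ (by positivity) he']
      have := Nat.le_ceil (1 / e')
      rw [one_div] at this
      push_cast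
      rw [one_div]
      linarith
  choose J D N hJ hh using hc
  obtain ⟨K₂, hK₂, hU⟩ := hg (fun j => D j * R (J j))
  refine ⟨3 + K₂ + ∑ j ∈ range (K₂ + 1), (J j + N j), by omega, fun X H hH hX => ?_⟩
  have hS : ∀ j ≤ K₂, J j + N j ≤ ∑ j ∈ range (K₂ + 1), (J j + N j) := fun j hj =>
    single_le_sum (f := fun j => J j + N j) (fun _ _ => Nat.zero_le _)
      (mem_range.2 (by omega))
  have hH3 : 3 ≤ H := by omega
  have hX2 : H ^ K₂ ≤ X := (Nat.pow_le_pow_right (by omega) (by omega)).trans hX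
  obtain ⟨j, hj1, hj2, hj3⟩ := hU X H (by omega) hX2
  by_contra hcon
  push Not at hcon
  apply hj3
  have hX1 : 1 ≤ X := le_trans (Nat.one_le_pow _ _ (by omega)) hX2
  have hlH1 : 1 ≤ Real.log H := by
    rw [Real.le_log_iff_exp_le (by exact_mod_cast (by omega : 0 < H))]
    have h1 := Real.exp_one_lt_d9
    have h2 : (3 : ℝ) ≤ H := by exact_mod_cast hH3
    linarith
  have hK : ((3 + K₂ + ∑ j ∈ range (K₂ + 1), (J j + N j) : ℕ) : ℝ) * Real.log H ≤ Real.log X := by
    rw [← Real.log_pow]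
    apply Real.log_le_log (by positivity)
    exact_mod_cast hX
  have hNj : ((N j : ℕ) : ℝ) ≤ ((3 + K₂ + ∑ j ∈ range (K₂ + 1), (J j + N j) : ℕ) : ℝ) := by
    have := hS j hj2
    exact_mod_cast (by omega : N j ≤ 3 + K₂ + ∑ j ∈ range (K₂ + 1), (J j + N j))
  have hN2 : (N j : ℝ) * Real.log H ≤ Real.log X :=
    (mul_le_mul_of_nonneg_right hNj (by linarith)).trans hK
  have hN1 : (N j : ℝ) ≤ Real.log X := by
    refine le_trans ?_ hN2
    exact le_mul_of_one_le_right (Nat.cast_nonneg _) hlH1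
  refine hh j (R (J j)) X H (by omega) hX1 hN1 hN2 (hcon (J j) (hJ j) ?_) hj1
  have := hS j hj2
  omega

/-! ## logarithmic means -/

lemma lg_win (X H : ℕ) (hH : 1 ≤ H) (u : ℕ → ℝ) (U : ℝ) (h0 : ∀ n, 0 ≤ u n)
    (hU : ∀ n, u n ≤ U) :
    lg X (fun n => (∑ m ∈ Ioc n (n + H), u m) / H) ≤
      2 * ∑ m ∈ Icc 1 (X + H), u m / m + U * (1 + Real.log H) := by
  have hU0 : 0 ≤ U := (h0 0).trans (hU 0)
  have hHr : (0 : ℝ) < H := by exact_mod_cast hH
  have h1 : ∀ n : ℕ, ∑ m ∈ Ioc n (n + H), u m = ∑ h ∈ Icc 1 H, u (n + h) := by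
    intro n
    have h : Ioc n (n + H) = (Icc 1 H).image (fun h => n + h) := by
      ext m
      rw [mem_Ioc, mem_image]
      constructor
      · intro hm
        exact ⟨m - n, by rw [mem_Icc]; omega, by omega⟩
      · rintro ⟨h, hh, rfl⟩
        rw [mem_Icc] at hh
        omega
    rw [h, sum_image]
    intro a _ b _ hab
    simpa using hab
  have h2 : lg X (fun n => (∑ m ∈ Ioc n (n + H), u m) / H) =
      (1 / (H : ℝ)) * ∑ h ∈ Icc 1 H, ∑ n ∈ Icc 1 X, u (n + h) / n := by
    unfold lg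
    rw [sum_comm, mul_sum]
    refine sum_congr rfl fun n _ => ?_
    dsimp only
    rw [h1 n, ← sum_div]
    ring
  rw [h2]
  have h3 : ∀ h ∈ Icc 1 H, ∑ n ∈ Icc 1 X, u (n + h) / n ≤
      2 * ∑ m ∈ Icc 1 (X + H), u m / m + U * (1 + Real.log H) := by
    intro h hh
    rw [mem_Icc] at hh
    have h4 : ∀ n ∈ Icc 1 X, u (n + h) / (n : ℝ) ≤
        2 * (u (n + h) / ((n + h : ℕ) : ℝ)) + U * (if n ≤ H then 1 / (n : ℝ) else 0) := by
      intro n hn
      rw [mem_Icc] at hn
      have hn0 : (0 : ℝ) < n := by exact_mod_cast hn.1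
      have hh0 : (0 : ℝ) < h := by exact_mod_cast hh.1
      by_cases hnH : n ≤ H
      · rw [if_pos hnH]
        have h5 : u (n + h) / (n : ℝ) ≤ U * (1 / (n : ℝ)) := by
          rw [mul_one_div]
          exact div_le_div_of_nonneg_right (hU _) hn0.le
        have h6 : 0 ≤ 2 * (u (n + h) / ((n + h : ℕ) : ℝ)) := by
          have := h0 (n + h)
          positivity
        linarith
      · rw [if_neg hnH, mul_zero, add_zero]
        have h5 : (h : ℝ) ≤ n := by exact_mod_cast (by omega : h ≤ n)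
        push_cast
        rw [← mul_div_assoc, div_le_div_iff₀ hn0 (by positivity)]
        nlinarith [h0 (n + h)]
    refine (sum_le_sum h4).trans ?_
    rw [sum_add_distrib, ← mul_sum, ← mul_sum]
    apply add_le_add
    · apply mul_le_mul_of_nonneg_left _ (by norm_num)
      have h5 : ∑ n ∈ Icc 1 X, u (n + h) / ((n + h : ℕ) : ℝ) =
          ∑ m ∈ (Icc 1 X).image (fun n => n + h), u m / (m : ℝ) := by
        rw [sum_image]
        intro a _ b _ hab
        simpa using hab
      rw [h5]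
      apply sum_le_sum_of_subset_of_nonneg
      · intro m hm
        rw [mem_image] at hm
        obtain ⟨n, hn, rfl⟩ := hm
        rw [mem_Icc] at hn ⊢
        omega
      · intro m _ _
        have := h0 m
        positivity
    · apply mul_le_mul_of_nonneg_left _ hU0
      rw [← sum_filter]
      refine le_trans ?_ (hs_le H)
      unfold hs
      apply sum_le_sum_of_subset_of_nonneg
      · intro n hn
        rw [mem_filter, mem_Icc] at hn
        rw [mem_Icc]
        omega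
      · intro n _ _
        positivity
  have h4 := sum_le_sum h3
  rw [sum_const, Nat.card_Icc, Nat.add_sub_cancel, nsmul_eq_mul] at h4
  calc (1 / (H : ℝ)) * ∑ h ∈ Icc 1 H, ∑ n ∈ Icc 1 X, u (n + h) / n
      ≤ (1 / (H : ℝ)) * (H * (2 * ∑ m ∈ Icc 1 (X + H), u m / m + U * (1 + Real.log H))) :=
        mul_le_mul_of_nonneg_left h4 (by positivity)
    _ = 2 * ∑ m ∈ Icc 1 (X + H), u m / m + U * (1 + Real.log H) := by
        field_simp

lemma lg_dil (X D : ℕ) (hD : 1 ≤ D) (E : ℕ → ℝ) (h0 : ∀ n, 0 ≤ E n) (hE : E 0 ≤ 1) :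
    lg X (fun n => E (n / D)) ≤ lg X E + (1 + Real.log D) := by
  have hDr : (0 : ℝ) < D := by exact_mod_cast hD
  have h1 : lg X (fun n => E (n / D)) =
      ∑ q ∈ range (X + 1), ∑ n ∈ (Icc 1 X).filter (fun n => n / D = q), E (n / D) / n := by
    unfold lg
    rw [sum_fiberwise_of_maps_to]
    intro n hn
    rw [mem_Icc] at hn
    rw [mem_range]
    have := Nat.div_le_self n D
    omega
  rw [h1, sum_range_succ']
  have h2 : ∀ q ∈ range X, ∑ n ∈ (Icc 1 X).filter (fun n => n / D = q + 1), E (n / D) / n ≤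
      E (q + 1) / ((q + 1 : ℕ) : ℝ) := by
    intro q _
    have h3 : ∀ n ∈ (Icc 1 X).filter (fun n => n / D = q + 1), E (n / D) / (n : ℝ) ≤
        E (q + 1) / (((q + 1 : ℕ) : ℝ) * D) := by
      intro n hn
      rw [mem_filter, mem_Icc] at hn
      rw [hn.2]
      apply div_le_div_of_nonneg_left (h0 _) (by positivity)
      have h4 : n / D * D ≤ n := Nat.div_mul_le_self n D
      rw [hn.2] at h4
      exact_mod_cast h4
    refine (sum_le_sum h3).trans ?_
    rw [sum_const, nsmul_eq_mul]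
    have h5 : ((Icc 1 X).filter (fun n => n / D = q + 1)).card ≤ D := by
      have h6 : (Icc 1 X).filter (fun n => n / D = q + 1) ⊆ Ico ((q + 1) * D) ((q + 1) * D + D) := by
        intro n hn
        rw [mem_filter, mem_Icc] at hn
        rw [mem_Ico]
        have h7 := Nat.div_mul_le_self n D
        have h8 := Nat.lt_div_mul_add (a := n) (b := D) (by omega)
        rw [hn.2] at h7 h8
        exact ⟨h7, h8⟩
      refine (card_le_card h6).trans ?_
      simp
    have h5r : (((Icc 1 X).filter (fun n => n / D = q + 1)).card : ℝ) ≤ D := by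
      exact_mod_cast h5
    calc (((Icc 1 X).filter (fun n => n / D = q + 1)).card : ℝ) *
          (E (q + 1) / (((q + 1 : ℕ) : ℝ) * D))
        ≤ (D : ℝ) * (E (q + 1) / (((q + 1 : ℕ) : ℝ) * D)) := by
          apply mul_le_mul_of_nonneg_right h5r
          have := h0 (q + 1)
          positivity
      _ = E (q + 1) / ((q + 1 : ℕ) : ℝ) := by
          field_simp
  have h3 : ∑ n ∈ (Icc 1 X).filter (fun n => n / D = 0), E (n / D) / n ≤ 1 + Real.log D := by
    refine le_trans ?_ (hs_le D)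
    unfold hs
    have h4 : ∀ n ∈ (Icc 1 X).filter (fun n => n / D = 0), E (n / D) / (n : ℝ) ≤ 1 / n := by
      intro n hn
      rw [mem_filter, mem_Icc] at hn
      rw [hn.2]
      exact div_le_div_of_nonneg_right hE (by positivity)
    refine (sum_le_sum h4).trans ?_
    apply sum_le_sum_of_subset_of_nonneg
    · intro n hn
      rw [mem_filter, mem_Icc] at hn
      rw [mem_Icc]
      have : n < D := by
        have h5 := (Nat.div_eq_zero_iff).1 hn.2
        omega
      omega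
    · intro n _ _
      positivity
  have h4 : ∑ q ∈ range X, E (q + 1) / ((q + 1 : ℕ) : ℝ) = lg X E := by
    unfold lg
    have h6 : Icc 1 X = (range X).image (fun q => q + 1) := by
      ext m
      rw [mem_Icc, mem_image]
      constructor
      · intro hm
        exact ⟨m - 1, by rw [mem_range]; omega, by omega⟩
      · rintro ⟨h, hh, rfl⟩
        rw [mem_range] at hh
        omega
    rw [h6, sum_image]
    intro a _ b _ hab
    simpa using hab
  have h5 := sum_le_sum h2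
  linarith

end Pool.Agent.H83.TR
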