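import Pool.Agent.H83.TR.ClsU
import Pool.Agent.H6.G9.Targets

/-!
# Theorem (H), MP_c59857_nt: the 99 per cent form for the whole class
-/

set_option autoImplicit false

namespace Pool.Agent.H83.TR

open Finset Pool.Agent.H6.N4D Pool.Agent.H93.EB

/-- **Theorem (H) for the whole class.** The constants `c` and `K` depend on `k`, `T`, `ρ` only;
for Möbius' function (`k = 1`, `T = 0`, `ρ = 0`) they are absolute. -/
theorem g99U (hH : Pool.Agent.H6.G9.T_G99) (k : ℕ) [NeZero k] (T : ℝ) (ρ : ℕ → ℝ)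
    (hρ : Summable (fun p : Nat.Primes => ρ p / ((p : ℕ) : ℝ))) :
    ∃ (c : ℝ) (K : ℕ), 0 < c ∧ ∀ R : ℕ, ∃ H₀ : ℕ, ∀ H X : ℕ, H₀ ≤ H →
      Real.log (Real.log X) ^ K ≤ H → H ^ K ≤ X →
      ∀ (χ : DirichletCharacter ℂ k) (t : ℝ) (f : ℕ → ℂ), |t| ≤ T → (∀ n, ‖f n‖ ≤ 1) →
      (∀ n : ℕ, Squarefree n → f n = ∏ p ∈ n.primeFactors, f p) →
      (∀ p : ℕ, p.Prime → ‖f p + χ (p : ZMod k) * (p : ℂ) ^ ((t : ℂ) * Complex.I)‖ ≤ ρ p) →
      ∀ (b : ℕ → ℕ → ℂ) (β : ℕ → ℕ → ℝ), (∀ n r, ‖b n r‖ ≤ 1) →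
        c * Real.log X < ∑ n ∈ Icc 1 X, 1 / (n : ℝ) * ((∑ h ∈ Icc 1 H,
          ‖f (n + h) - ∑ r ∈ range R,
            b n r * Complex.exp (2 * Real.pi * Complex.I * (β n r * h))‖ ^ 2) / H) := by
  obtain ⟨c₀, K₀, hc₀, hK₀, hH⟩ := hH
  obtain ⟨e', he', D, C, hred⟩ := redU_cl k |T| ρ NeZero.one_le (abs_nonneg T) hρ c₀ hc₀
  refine ⟨e', K₀ + ⌈C⌉₊, he', fun R => ?_⟩
  obtain ⟨H₁, hH₁⟩ := hH (D * R)
  refine ⟨H₁ + 3, fun H X hH hlX hX χ t f ht hb hm hp b β hbb => ?_⟩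
  by_contra hcon
  push Not at hcon
  have hH3 : 3 ≤ H := by omega
  have hX1 : H ≤ X := by
    refine le_trans ?_ hX
    calc H = H ^ 1 := (pow_one H).symm
      _ ≤ H ^ (K₀ + ⌈C⌉₊) := Nat.pow_le_pow_right (by omega) (by omega)
  have hlH1 : 1 ≤ Real.log H := by
    rw [Real.le_log_iff_exp_le (by exact_mod_cast (by omega : 0 < H))]
    have h1 := Real.exp_one_lt_d9
    have h2 : (3 : ℝ) ≤ H := by exact_mod_cast hH3
    linarith
  have hlog : ((K₀ + ⌈C⌉₊ : ℕ) : ℝ) * Real.log H ≤ Real.log X := by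
    rw [← Real.log_pow]
    apply Real.log_le_log (by positivity)
    exact_mod_cast hX
  have hC1 : C * Real.log H ≤ Real.log X := by
    refine le_trans (mul_le_mul_of_nonneg_right ?_ (by linarith)) hlog
    push_cast
    have h1 := Nat.le_ceil C
    have h2 : (0 : ℝ) ≤ K₀ := Nat.cast_nonneg _
    linarith
  have hC2 : C ≤ Real.log X := by
    have h3 : (((K₀ + ⌈C⌉₊ : ℕ) : ℝ)) ≤ ((K₀ + ⌈C⌉₊ : ℕ) : ℝ) * Real.log H :=
      le_mul_of_one_le_right (Nat.cast_nonneg _) hlH1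
    have h1 := Nat.le_ceil C
    have h2 : (0 : ℝ) ≤ K₀ := Nat.cast_nonneg _
    push_cast at h3 hlog
    linarith
  have hlX1 : 1 ≤ Real.log X := by
    refine hlH1.trans (Real.log_le_log ?_ (by exact_mod_cast hX1))
    exact_mod_cast (by omega : 0 < H)
  have hll : 0 ≤ Real.log (Real.log X) := Real.log_nonneg hlX1
  have hrange : Real.log (Real.log X) ^ K₀ ≤ H := by
    by_cases h1 : Real.log (Real.log X) ≤ 1
    · refine (pow_le_one₀ hll h1).trans ?_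
      exact_mod_cast (by omega : 1 ≤ H)
    · push Not at h1
      exact (pow_le_pow_right₀ h1.le (by omega)).trans hlX
  have hXK : H ^ K₀ ≤ X := (Nat.pow_le_pow_right (by omega) (by omega)).trans hX
  have h1 : App f R H X e' := app_of_plain hbb hcon
  have h2 := hred f ⟨χ, t, ht.trans (le_abs_self T), hb, hm,
    fun p hpp => by rw [ut_eq t hpp.ne_zero]; exact hp p hpp⟩ R X H (by omega) hC2 hC1 h1
  obtain ⟨b', β', hb', hle⟩ := h2
  have hl : ∀ m, Lio1 m = ((lioR m : ℝ) : ℂ) := by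
    intro m
    unfold lioR Lio1
    push_cast
    rfl
  simp only [hl] at hle
  exact absurd (hH₁ X H lioR (by omega) hrange hXK lio_lioR b' β' hb') (not_lt.2 hle)

end Pool.Agent.H83.TR
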