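import Pool.Agent.H83.TR.Slow

/-!
# Transfer of theorem (G), MP_c59857_nt: multiplicative functions close to `λ χ n^(it)`
-/

set_option autoImplicit false

namespace Pool.Agent.H83.TR

open Finset Pool.Agent.H6.N4D Pool.Agent.H93.EB

/-- Liouville's function -/
noncomputable def Lio1 (n : ℕ) : ℂ := (-1) ^ ArithmeticFunction.cardFactors n

lemma norm_Lio1 (n : ℕ) : ‖Lio1 n‖ = 1 := by simp [Lio1]

lemma Lio1_mul {m n : ℕ} (hm : m ≠ 0) (hn : n ≠ 0) : Lio1 (m * n) = Lio1 m * Lio1 n := by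
  unfold Lio1
  rw [ArithmeticFunction.cardFactors_mul hm hn, pow_add]

lemma Lio1_one : Lio1 1 = 1 := by simp [Lio1]

lemma Lio1_prime {p : ℕ} (hp : p.Prime) : Lio1 p = -1 := by
  simp [Lio1, ArithmeticFunction.cardFactors_apply_prime hp]

/-- `λ(n) n ^ (i t)` -/
noncomputable def Af (t : ℝ) (n : ℕ) : ℂ := ut t n * Lio1 n

lemma norm_Af (t : ℝ) (n : ℕ) : ‖Af t n‖ = 1 := by
  unfold Af
  rw [norm_mul, norm_ut, norm_Lio1, mul_one]

lemma Af_mul (t : ℝ) {m n : ℕ} (hm : m ≠ 0) (hn : n ≠ 0) : Af t (m * n) = Af t m * Af t n := by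
  unfold Af
  rw [Lio1_mul hm hn, ut_mul t hm hn]
  ring

lemma Af_one (t : ℝ) : Af t 1 = 1 := by simp [Af, ut_one, Lio1_one]

lemma Af_cop (t : ℝ) (x y : ℕ) (h : Nat.Coprime x y) : Af t (x * y) = Af t x * Af t y := by
  rcases Nat.eq_zero_or_pos x with hx | hx
  · subst hx
    have hy : y = 1 := by simpa using h
    subst hy
    rw [mul_one, Af_one, mul_one]
  · rcases Nat.eq_zero_or_pos y with hy | hy
    · subst hy
      have hx : x = 1 := by simpa using h
      subst hx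
      rw [one_mul, Af_one, one_mul]
    · exact Af_mul t (by omega) (by omega)

/-- differences of products -/
lemma norm_prod_sub (s : Finset ℕ) (a b : ℕ → ℂ) (ha : ∀ i ∈ s, ‖a i‖ ≤ 1)
    (hb : ∀ i ∈ s, ‖b i‖ ≤ 1) : ‖∏ i ∈ s, a i - ∏ i ∈ s, b i‖ ≤ ∑ i ∈ s, ‖a i - b i‖ := by
  classical
  induction s using Finset.induction_on with
  | empty => simp
  | insert i s hi ih =>
    rw [prod_insert hi, prod_insert hi, sum_insert hi]
    have h1 := ih (fun j hj => ha j (mem_insert_of_mem hj)) (fun j hj => hb j (mem_insert_of_mem hj))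
    have h2 : ‖∏ j ∈ s, a j‖ ≤ 1 := by
      rw [norm_prod]
      exact prod_le_one (fun j _ => norm_nonneg _) fun j hj => ha j (mem_insert_of_mem hj)
    have h3 : a i * ∏ j ∈ s, a j - b i * ∏ j ∈ s, b j =
        (a i - b i) * ∏ j ∈ s, a j + b i * (∏ j ∈ s, a j - ∏ j ∈ s, b j) := by ring
    rw [h3]
    refine (norm_add_le _ _).trans (add_le_add ?_ ?_)
    · rw [norm_mul]
      exact mul_le_of_le_one_right (norm_nonneg _) h2
    · rw [norm_mul]
      refine le_trans ?_ h1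
      exact mul_le_of_le_one_left (norm_nonneg _) (hb i (mem_insert_self i s))

/-- all prime factors are at most `w` -/
def Sm (w D : ℕ) : Prop := ∀ p : ℕ, p.Prime → p ∣ D → p ≤ w

/-- the factorization into a smooth and a rough number -/
lemma exists_fac (w : ℕ) : ∀ n : ℕ, 1 ≤ n → ∃ D m : ℕ, n = D * m ∧ 1 ≤ D ∧ 1 ≤ m ∧ Sm w D ∧
    Nat.Coprime m w.factorial := by
  intro n
  induction n using Nat.strong_induction_on with
  | _ n ih =>
    intro hn
    by_cases h : Nat.Coprime n w.factorial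
    · refine ⟨1, n, by ring, le_rfl, hn, fun p hp hd => ?_, h⟩
      have := Nat.dvd_one.1 hd
      exact absurd this hp.one_lt.ne'
    · obtain ⟨p, hp, hpn, hpw⟩ := Nat.Prime.not_coprime_iff_dvd.1 h
      have hpw' : p ≤ w := (hp.dvd_factorial).1 hpw
      obtain ⟨n', rfl⟩ := hpn
      have hn' : 1 ≤ n' := by
        rcases Nat.eq_zero_or_pos n' with h0 | h0
        · subst h0
          simp at hn
        · exact h0
      have hlt : n' < p * n' := by
        have := hp.two_le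
        nlinarith
      obtain ⟨D, m, hDm, hD, hm, hS, hc⟩ := ih n' hlt hn'
      refine ⟨p * D, m, by rw [hDm]; ring, Nat.mul_pos hp.pos hD, hm, fun r hr hd => ?_, hc⟩
      rcases (hr.dvd_mul).1 hd with h1 | h1
      · exact ((Nat.prime_dvd_prime_iff_eq hr hp).1 h1).le.trans hpw'
      · exact hS r hr h1

lemma cop_sm {w D m : ℕ} (hS : Sm w D) (hm : Nat.Coprime m w.factorial) : Nat.Coprime D m := by
  by_contra h
  obtain ⟨p, hp, h1, h2⟩ := Nat.Prime.not_coprime_iff_dvd.1 h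
  have h3 := hS p hp h1
  have h4 : p ∣ w.factorial := (hp.dvd_factorial).2 h3
  exact absurd hm (Nat.Prime.not_coprime_iff_dvd.2 ⟨p, hp, h2, h4⟩)

lemma fac_unique {w D m D' m' : ℕ} (h : D * m = D' * m') (hS : Sm w D) (hS' : Sm w D')
    (hc : Nat.Coprime m w.factorial) (hc' : Nat.Coprime m' w.factorial) : D = D' := by
  apply Nat.dvd_antisymm
  · have h1 : D ∣ D' * m' := ⟨m, h.symm⟩
    exact (cop_sm hS hc').dvd_of_dvd_mul_right h1
  · have h1 : D' ∣ D * m := ⟨m', h⟩
    exact (cop_sm hS' hc).dvd_of_dvd_mul_right h1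

/-- the sum over the multiples of `q` -/
lemma sum_dvd (Y q : ℕ) (hq : 1 ≤ q) (hY : 1 ≤ Y) :
    ∑ n ∈ Icc 1 Y, (if q ∣ n then (1 : ℝ) / n else 0) ≤ 1 / q * (1 + Real.log Y) := by
  rw [← sum_filter]
  have h1 : ∑ n ∈ (Icc 1 Y).filter (fun n => q ∣ n), (1 : ℝ) / n ≤
      ∑ m ∈ Icc 1 Y, (1 : ℝ) / q * (1 / m) := by
    have h2 : ∑ n ∈ (Icc 1 Y).filter (fun n => q ∣ n), (1 : ℝ) / n =
        ∑ m ∈ ((Icc 1 Y).filter (fun n => q ∣ n)).image (fun n => n / q), (1 : ℝ) / q * (1 / m) := by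
      rw [sum_image]
      · refine sum_congr rfl fun n hn => ?_
        rw [mem_filter, mem_Icc] at hn
        obtain ⟨m, rfl⟩ := hn.2
        rw [Nat.mul_div_cancel_left m (by omega)]
        push_cast
        rw [one_div_mul_one_div]
      · intro a ha b hb hab
        rw [mem_coe, mem_filter] at ha hb
        dsimp only at hab
        rw [← Nat.div_mul_cancel ha.2, ← Nat.div_mul_cancel hb.2, hab]
    rw [h2]
    apply sum_le_sum_of_subset_of_nonneg
    · intro m hm
      rw [mem_image] at hm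
      obtain ⟨n, hn, rfl⟩ := hm
      rw [mem_filter, mem_Icc] at hn
      rw [mem_Icc]
      have h3 := Nat.div_le_self n q
      have h4 : 1 ≤ n / q := (Nat.one_le_div_iff (by omega)).2 (Nat.le_of_dvd (by omega) hn.2)
      omega
    · intro m _ _
      positivity
  refine h1.trans ?_
  rw [← mul_sum]
  exact mul_le_mul_of_nonneg_left (hs_le Y) (by positivity)

lemma tail_small {a : ℕ → ℝ} (h0 : ∀ n, 0 ≤ a n) (h : Summable a) {δ : ℝ} (hδ : 0 < δ) :
    ∃ w : ℕ, ∀ w' : ℕ, w ≤ w' → ∀ Y : ℕ, ∑ q ∈ Ioc w' Y, a q ≤ δ := by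
  obtain ⟨s, hs⟩ := summable_iff_vanishing_norm.1 h δ hδ
  refine ⟨s.sup id, fun w' hw Y => ?_⟩
  have hd : Disjoint (Ioc w' Y) s := by
    rw [Finset.disjoint_left]
    intro q hq hqs
    rw [mem_Ioc] at hq
    have := Finset.le_sup (f := id) hqs
    simp only [id] at this
    omega
  have h1 := hs _ hd
  rw [Real.norm_of_nonneg (sum_nonneg fun q _ => h0 q)] at h1
  exact h1.le

open Classical in
lemma smooth_summable (w : ℕ) : Summable (fun D : ℕ => if D ≠ 0 ∧ Sm w D then (1 : ℝ) / D else 0) := by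
  let f : ℕ →* ℝ :=
    { toFun := fun n => (n : ℝ)⁻¹
      map_one' := by simp
      map_mul' := fun a b => by push_cast; rw [mul_inv] }
  have h1 := (EulerProduct.summable_and_hasSum_smoothNumbers_prod_primesBelow_geometric (f := f)
    (fun {p} hp => by
      change ‖(p : ℝ)⁻¹‖ < 1
      rw [norm_inv, Real.norm_natCast]
      exact inv_lt_one_of_one_lt₀ (by exact_mod_cast hp.one_lt)) (w + 1)).1
  have h2 := (summable_subtype_iff_indicator (f := fun n : ℕ => ‖f n‖)
    (s := Nat.smoothNumbers (w + 1))).1 h1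
  refine h2.congr fun D => ?_
  have h3 : D ∈ Nat.smoothNumbers (w + 1) ↔ (D ≠ 0 ∧ Sm w D) := by
    rw [Nat.mem_smoothNumbers]
    constructor
    · rintro ⟨h4, h5⟩
      refine ⟨h4, fun p hp hd => ?_⟩
      have := h5 p ((Nat.mem_primeFactorsList h4).2 ⟨hp, hd⟩)
      omega
    · rintro ⟨h4, h5⟩
      refine ⟨h4, fun p hp => ?_⟩
      have h6 := (Nat.mem_primeFactorsList h4).1 hp
      have := h5 p h6.1 h6.2
      omega
  by_cases hD : D ≠ 0 ∧ Sm w D
  · rw [if_pos hD, Set.indicator_of_mem (h3.2 hD)]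
    change ‖(D : ℝ)⁻¹‖ = 1 / (D : ℝ)
    rw [norm_inv, Real.norm_natCast, one_div]
  · rw [if_neg hD, Set.indicator_of_notMem (fun h => hD (h3.1 h))]

end Pool.Agent.H83.TR
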