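import Pool.Agent.H83.TR.Core

/-!
# Transfer of theorem (G), MP_c59857_nt: two reductions
-/

set_option autoImplicit false

namespace Pool.Agent.H83.TR

open Finset Pool.Agent.H6.N4D Pool.Agent.H93.EB

/-- the sum of the dilates -/
noncomputable def dl (D₀ : ℕ) (c : ℕ → ℕ → ℂ) (f : ℕ → ℂ) (n : ℕ) : ℂ :=
  ∑ D ∈ range D₀, (if (D + 1) ∣ n then c D (n / (D + 1)) * f (n / (D + 1)) else 0)

/-- `L` is, up to a small logarithmic mean square, a sum of finitely many dilates of `f` with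
periodic coefficients -/
def TrA (L f : ℕ → ℂ) : Prop := ∀ ε : ℝ, 0 < ε → ∃ (D₀ k : ℕ) (c : ℕ → ℕ → ℂ) (C : ℝ), 1 ≤ k ∧
  (∀ D m, ‖c D m‖ ≤ 1) ∧ (∀ D m, c D (m + k) = c D m) ∧
  ∀ Y : ℕ, 1 ≤ Y → ∑ n ∈ Icc 1 Y, ‖L n - dl D₀ c f n‖ ^ 2 / n ≤ ε * Real.log Y + C

lemma nsq_add (a b : ℂ) : ‖a + b‖ ^ 2 ≤ 2 * ‖a‖ ^ 2 + 2 * ‖b‖ ^ 2 := by
  have h1 : ‖a + b‖ ≤ ‖a‖ + ‖b‖ := norm_add_le a b
  have h2 : ‖a + b‖ ^ 2 ≤ (‖a‖ + ‖b‖) ^ 2 := pow_le_pow_left₀ (norm_nonneg _) h1 2
  nlinarith [sq_nonneg (‖a‖ - ‖b‖)]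

lemma nsq_sum (K : ℕ) (x : ℕ → ℂ) :
    ‖∑ i ∈ range K, x i‖ ^ 2 ≤ K * ∑ i ∈ range K, ‖x i‖ ^ 2 := by
  have h1 : ‖∑ i ∈ range K, x i‖ ≤ ∑ i ∈ range K, ‖x i‖ := norm_sum_le _ _
  have h2 : ‖∑ i ∈ range K, x i‖ ^ 2 ≤ (∑ i ∈ range K, ‖x i‖) ^ 2 :=
    pow_le_pow_left₀ (norm_nonneg _) h1 2
  have h3 := sq_sum_le_card_mul_sum_sq (s := range K) (f := fun i => ‖x i‖)
  rw [card_range] at h3
  exact h2.trans h3

/-- the window of a dilate -/
lemma win_dil (D : ℕ) (hD : 1 ≤ D) (F : ℕ → ℝ) (h0 : ∀ m, 0 ≤ F m) (n H : ℕ) :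
    ∑ m ∈ Ioc n (n + H), (if D ∣ m then F (m / D) else 0) ≤
      ∑ m ∈ Ioc (n / D) (n / D + H), F m := by
  rw [← sum_filter]
  have h1 : ∑ m ∈ (Ioc n (n + H)).filter (fun m => D ∣ m), F (m / D) =
      ∑ q ∈ ((Ioc n (n + H)).filter (fun m => D ∣ m)).image (fun m => m / D), F q := by
    rw [sum_image]
    intro a ha b hb hab
    rw [mem_coe, mem_filter] at ha hb
    dsimp only at hab
    have h2 := Nat.div_mul_cancel ha.2
    have h3 := Nat.div_mul_cancel hb.2
    rw [← h2, ← h3, hab]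
  rw [h1]
  apply sum_le_sum_of_subset_of_nonneg
  · intro q hq
    rw [mem_image] at hq
    obtain ⟨m, hm, rfl⟩ := hq
    rw [mem_filter, mem_Ioc] at hm
    obtain ⟨⟨hm1, hm2⟩, w, rfl⟩ := hm
    rw [Nat.mul_div_cancel_left w (by omega), mem_Ioc]
    constructor
    · rw [Nat.div_lt_iff_lt_mul (by omega)]
      rw [mul_comm] at hm1
      exact hm1
    · have h2 : n < (n / D) * D + D := Nat.lt_div_mul_add (by omega)
      by_contra hcon
      push Not at hcon
      have h3 : (n / D + H + 1) * D ≤ w * D := Nat.mul_le_mul_right D hcon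
      have h4 : H ≤ H * D := Nat.le_mul_of_pos_right H (by omega)
      have h5 : (n / D + H + 1) * D = n / D * D + H * D + D := by ring
      have h6 : D * w = w * D := mul_comm _ _
      omega
  · intro m _ _
    exact h0 m

/-- the first reduction -/
theorem red_trA {L f : ℕ → ℂ} (hL : ∀ n, ‖L n‖ ≤ 1) (hf : ∀ n, ‖f n‖ ≤ 1) (h : TrA L f) :
    Red f L := by
  intro e he
  obtain ⟨D₀, k, c, C, hk, hc1, hcp, hT⟩ := h (e / 16) (by positivity)
  set A : ℝ := 2 * D₀ * D₀ with hA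
  have hA0 : 0 ≤ A := by positivity
  have hD₀r : (0 : ℝ) ≤ D₀ := Nat.cast_nonneg _
  set U : ℝ := (1 + D₀) ^ 2 with hU
  have hU0 : 0 ≤ U := by positivity
  set B : ℝ := e + 4 * |C| + 2 * U + A * (1 + Real.log (D₀ + 1)) with hB
  have hlD : 0 ≤ Real.log ((D₀ : ℝ) + 1) := Real.log_nonneg (by linarith)
  have hB0 : 0 ≤ B := by positivity
  refine ⟨e / (8 * (A + 1)), by positivity, D₀ * D₀ * k, 1 + 4 * B / e + 16 * U / e, ?_⟩
  intro R X H hH hX hXH ha
  rw [app_iff] at ha ⊢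
  obtain ⟨g, hg, hlg⟩ := ha
  have hHr : (0 : ℝ) < H := by exact_mod_cast hH
  have hlH : 0 ≤ Real.log H := Real.log_nonneg (by exact_mod_cast hH)
  -- the approximation with the window at `0` removed
  set g' : ℕ → ℕ → ℂ := fun n => if n = 0 then (fun _ => 0) else g n with hg'
  have hg'W : ∀ n, W R (g' n) := by
    intro n
    rw [hg']
    dsimp only
    split_ifs
    · exact W_zero R
    · exact hg n
  set E : ℕ → ℝ := fun n => (∑ m ∈ Ioc n (n + H), ‖f m - g' n m‖ ^ 2) / H with hE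
  have hE0 : ∀ n, 0 ≤ E n := fun n => by
    rw [hE]
    dsimp only
    exact div_nonneg (sum_nonneg fun m _ => by positivity) hHr.le
  have hE00 : E 0 ≤ 1 := by
    rw [hE]
    dsimp only
    rw [div_le_one hHr]
    have h1 : ∀ m ∈ Ioc 0 (0 + H), ‖f m - g' 0 m‖ ^ 2 ≤ (1 : ℝ) := by
      intro m _
      rw [hg']
      simp only [if_true, sub_zero]
      exact pow_le_one₀ (norm_nonneg _) (hf m)
    refine (sum_le_sum h1).trans ?_
    simp
  have hElg : lg X E ≤ e / (8 * (A + 1)) * Real.log X := by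
    refine le_trans (le_of_eq ?_) hlg
    unfold lg
    refine sum_congr rfl fun n hn => ?_
    rw [mem_Icc] at hn
    have hn0 : n ≠ 0 := by omega
    rw [hE, hg']
    dsimp only
    rw [if_neg hn0]
  -- the new approximation
  set G : ℕ → ℕ → ℂ := fun n m => ∑ D ∈ range D₀,
    (if (D + 1) ∣ m then c D (m / (D + 1)) * g' (n / (D + 1)) (m / (D + 1)) else 0) with hG
  have hGW : ∀ n, W (D₀ * D₀ * k * R) (G n) := by
    intro n
    have h1 : ∀ D < D₀, W (D₀ * k * R) (fun m => if (D + 1) ∣ m then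
        c D (m / (D + 1)) * g' (n / (D + 1)) (m / (D + 1)) else 0) := by
      intro D hD
      have h2 := W_per (hg'W (n / (D + 1))) hk (hcp D) (hc1 D)
      have h3 := W_dil h2 (D + 1) (by omega)
      refine W_mono h3 ?_
      rw [mul_assoc]
      exact Nat.mul_le_mul_right _ (by omega)
    have h2 := W_sum (g := fun D m => if (D + 1) ∣ m then
        c D (m / (D + 1)) * g' (n / (D + 1)) (m / (D + 1)) else 0) D₀ h1
    have h3 : D₀ * D₀ * k * R = D₀ * (D₀ * k * R) := by ring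
    rw [h3]
    exact h2
  refine ⟨G, hGW, ?_⟩
  -- the error
  have hpt : ∀ n m, ‖L m - G n m‖ ^ 2 ≤ 2 * ‖L m - dl D₀ c f m‖ ^ 2 +
      2 * D₀ * ∑ D ∈ range D₀, (if (D + 1) ∣ m then
        ‖f (m / (D + 1)) - g' (n / (D + 1)) (m / (D + 1))‖ ^ 2 else 0) := by
    intro n m
    have h1 : L m - G n m = (L m - dl D₀ c f m) + (dl D₀ c f m - G n m) := by ring
    rw [h1]
    refine (nsq_add _ _).trans ?_
    have h2 : dl D₀ c f m - G n m = ∑ D ∈ range D₀, (if (D + 1) ∣ m then
        c D (m / (D + 1)) * (f (m / (D + 1)) - g' (n / (D + 1)) (m / (D + 1))) else 0) := by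
      rw [hG]
      unfold dl
      dsimp only
      rw [← sum_sub_distrib]
      refine sum_congr rfl fun D _ => ?_
      split_ifs
      · ring
      · ring
    have h3 := nsq_sum D₀ (fun D => (if (D + 1) ∣ m then
        c D (m / (D + 1)) * (f (m / (D + 1)) - g' (n / (D + 1)) (m / (D + 1))) else 0))
    rw [← h2] at h3
    have h4 : ∑ D ∈ range D₀, ‖(if (D + 1) ∣ m then
        c D (m / (D + 1)) * (f (m / (D + 1)) - g' (n / (D + 1)) (m / (D + 1))) else 0)‖ ^ 2 ≤
        ∑ D ∈ range D₀, (if (D + 1) ∣ m then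
        ‖f (m / (D + 1)) - g' (n / (D + 1)) (m / (D + 1))‖ ^ 2 else 0) := by
      refine sum_le_sum fun D _ => ?_
      split_ifs
      · rw [norm_mul, mul_pow]
        exact mul_le_of_le_one_left (by positivity) (pow_le_one₀ (norm_nonneg _) (hc1 _ _))
      · simp
    have h5 := mul_le_mul_of_nonneg_left h4 hD₀r
    nlinarith
  have hwin : ∀ n, (∑ m ∈ Ioc n (n + H), ‖L m - G n m‖ ^ 2) / H ≤
      2 * ((∑ m ∈ Ioc n (n + H), ‖L m - dl D₀ c f m‖ ^ 2) / H) +
      2 * D₀ * ∑ D ∈ range D₀, E (n / (D + 1)) := by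
    intro n
    have h1 := sum_le_sum (s := Ioc n (n + H)) fun m _ => hpt n m
    rw [sum_add_distrib, ← mul_sum, ← mul_sum, sum_comm] at h1
    have h2 : ∑ D ∈ range D₀, ∑ m ∈ Ioc n (n + H), (if (D + 1) ∣ m then
        ‖f (m / (D + 1)) - g' (n / (D + 1)) (m / (D + 1))‖ ^ 2 else 0) ≤
        ∑ D ∈ range D₀, H * E (n / (D + 1)) := by
      refine sum_le_sum fun D _ => ?_
      refine (win_dil (D + 1) (by omega) (fun q => ‖f q - g' (n / (D + 1)) q‖ ^ 2)
        (fun _ => by positivity) n H).trans ?_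
      rw [hE]
      dsimp only
      rw [mul_div_cancel₀ _ hHr.ne']
    rw [← mul_sum] at h2
    have h3 := mul_le_mul_of_nonneg_left h2 (by positivity : (0 : ℝ) ≤ 2 * D₀)
    rw [div_le_iff₀ hHr]
    calc ∑ m ∈ Ioc n (n + H), ‖L m - G n m‖ ^ 2
        ≤ 2 * ∑ m ∈ Ioc n (n + H), ‖L m - dl D₀ c f m‖ ^ 2 +
          2 * D₀ * (H * ∑ D ∈ range D₀, E (n / (D + 1))) := h1.trans (by linarith)
      _ = _ := by field_simp
  have hmain := lg_mono (X := X) fun n _ => hwin n
  refine hmain.trans ?_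
  rw [lg_add, lg_mul, lg_mul, lg_sum]
  -- the tail
  have htb : ∀ m, ‖L m - dl D₀ c f m‖ ^ 2 ≤ U := by
    intro m
    rw [hU]
    apply pow_le_pow_left₀ (norm_nonneg _)
    refine (norm_sub_le _ _).trans (add_le_add (hL m) ?_)
    unfold dl
    refine (norm_sum_le _ _).trans ?_
    have h1 : ∀ D ∈ range D₀, ‖(if (D + 1) ∣ m then c D (m / (D + 1)) * f (m / (D + 1)) else 0)‖ ≤
        (1 : ℝ) := by
      intro D _
      split_ifs
      · rw [norm_mul]
        exact mul_le_one₀ (hc1 _ _) (norm_nonneg _) (hf _)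
      · simp
    refine (sum_le_sum h1).trans ?_
    simp
  have h1 := lg_win X H hH (fun m => ‖L m - dl D₀ c f m‖ ^ 2) U (fun _ => by positivity) htb
  have hX1 : 1 < Real.log X := by
    have h2 : 0 < 4 * B / e := by
      apply div_pos _ he
      have : 0 < B := by
        rw [hB]
        have := abs_nonneg C
        positivity
      linarith
    have h3 : 0 ≤ 16 * U / e := by positivity
    linarith
  have hX3 : 2 ≤ X := by
    by_contra hcon
    have : X = 0 ∨ X = 1 := by omega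
    rcases this with h | h <;> · rw [h] at hX1; simp at hX1; linarith
  have hHX : H ≤ X := by
    have h2 : Real.log H ≤ Real.log X := by
      refine le_trans ?_ hXH
      apply le_mul_of_one_le_left hlH
      have h2 : 0 ≤ 4 * B / e := by positivity
      have h3 : 0 ≤ 16 * U / e := by positivity
      linarith
    have h3 := (Real.log_le_log_iff hHr (by positivity : (0 : ℝ) < X)).1 h2
    exact_mod_cast h3
  have h2 := hT (X + H) (by omega)
  have h3 : Real.log ((X + H : ℕ) : ℝ) ≤ 1 + Real.log X := by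
    have h4 : ((X + H : ℕ) : ℝ) ≤ 2 * X := by
      push_cast
      have : (H : ℝ) ≤ X := by exact_mod_cast hHX
      linarith
    have h5 : Real.log ((X + H : ℕ) : ℝ) ≤ Real.log (2 * X) := by
      apply Real.log_le_log _ h4
      have : (0 : ℝ) < X := by positivity
      push_cast
      positivity
    rw [Real.log_mul (by norm_num) (by positivity)] at h5
    have := Real.log_two_lt_d9
    linarith
  -- the dilations
  have h4 : ∑ D ∈ range D₀, lg X (fun n => E (n / (D + 1))) ≤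
      D₀ * (e / (8 * (A + 1)) * Real.log X + (1 + Real.log (D₀ + 1))) := by
    have h5 : ∀ D ∈ range D₀, lg X (fun n => E (n / (D + 1))) ≤
        e / (8 * (A + 1)) * Real.log X + (1 + Real.log (D₀ + 1)) := by
      intro D hD
      rw [mem_range] at hD
      have h6 := lg_dil X (D + 1) (by omega) E hE0 hE00
      have h7 : Real.log ((D + 1 : ℕ) : ℝ) ≤ Real.log (D₀ + 1) := by
        apply Real.log_le_log (by positivity)
        push_cast
        have : (D : ℝ) < D₀ := by exact_mod_cast hD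
        linarith
      linarith
    refine (sum_le_sum h5).trans ?_
    rw [sum_const, card_range, nsmul_eq_mul]
  have h5 : 2 * D₀ * ∑ D ∈ range D₀, lg X (fun n => E (n / (D + 1))) ≤
      e / 8 * Real.log X + A * (1 + Real.log (D₀ + 1)) := by
    have h6 := mul_le_mul_of_nonneg_left h4 (by positivity : (0 : ℝ) ≤ 2 * D₀)
    refine h6.trans ?_
    have h7 : 2 * (D₀ : ℝ) * (D₀ * (e / (8 * (A + 1)) * Real.log X + (1 + Real.log (D₀ + 1)))) =
        A * (e / (8 * (A + 1))) * Real.log X + A * (1 + Real.log (D₀ + 1)) := by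
      rw [hA]
      ring
    rw [h7]
    have h8 : A * (e / (8 * (A + 1))) ≤ e / 8 := by
      rw [← mul_div_assoc, div_le_div_iff₀ (by positivity) (by norm_num)]
      nlinarith
    have h9 := mul_le_mul_of_nonneg_right h8 (by linarith : (0 : ℝ) ≤ Real.log X)
    linarith
  have h6 : ∑ m ∈ Icc 1 (X + H), ‖L m - dl D₀ c f m‖ ^ 2 / (m : ℝ) ≤
      e / 16 * (1 + Real.log X) + |C| := by
    refine h2.trans ?_
    have h7 := mul_le_mul_of_nonneg_left h3 (by positivity : (0 : ℝ) ≤ e / 16)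
    have h8 := le_abs_self C
    linarith
  have h7 : U * Real.log H ≤ e / 16 * Real.log X := by
    have h8 : 16 * U / e * Real.log H ≤ Real.log X := by
      refine le_trans ?_ hXH
      apply mul_le_mul_of_nonneg_right _ hlH
      have : 0 ≤ 4 * B / e := by positivity
      linarith
    have h9 : U * Real.log H = e / 16 * (16 * U / e * Real.log H) := by
      field_simp
    rw [h9]
    exact mul_le_mul_of_nonneg_left h8 (by positivity)
  have h8 : B ≤ e / 4 * Real.log X := by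
    have h9 : 4 * B / e ≤ Real.log X := by
      have : 0 ≤ 16 * U / e := by positivity
      linarith
    rw [div_le_iff₀ he] at h9
    linarith
  have h9 := mul_le_mul_of_nonneg_left h1 (by norm_num : (0 : ℝ) ≤ 2)
  have h10 : e * Real.log X ≥ 0 := by positivity
  rw [hB] at h8
  have h11 : 2 * (2 * ∑ m ∈ Icc 1 (X + H), ‖L m - dl D₀ c f m‖ ^ 2 / (m : ℝ) +
      U * (1 + Real.log H)) ≤ e / 4 * (1 + Real.log X) + 4 * |C| + 2 * U +
        e / 8 * Real.log X := by
    nlinarith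
  refine (add_le_add (h9.trans h11) h5).trans ?_
  nlinarith

end Pool.Agent.H83.TR
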