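import Pool.Agent.H83.TR.Red

/-!
# Transfer of theorem (G), MP_c59857_nt: slowly varying factors
-/

set_option autoImplicit false

namespace Pool.Agent.H83.TR

open Finset Pool.Agent.H6.N4D Pool.Agent.H93.EB

/-- the second reduction: slowly varying unimodular factors -/
theorem red_slow {L u : ℕ → ℂ} (hL : ∀ n, ‖L n‖ ≤ 1) (hu : ∀ n, ‖u n‖ = 1) {T : ℝ} (hT : 0 ≤ T)
    (hsl : ∀ n h : ℕ, 1 ≤ n → ‖u (n + h) - u n‖ ≤ T * h / n) :
    Red (fun n => u n * L n) L := by
  intro e he
  refine ⟨e / 4, by positivity, 1, (32 + 16 * T) / e, fun R X H hH hX hXH ha => ?_⟩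
  rw [one_mul]
  rw [app_iff] at ha ⊢
  obtain ⟨g, hg, hlg⟩ := ha
  have hHr : (0 : ℝ) < H := by exact_mod_cast hH
  have hlH : 0 ≤ Real.log H := Real.log_nonneg (by exact_mod_cast hH)
  refine ⟨fun n m => (starRingEnd ℂ) (u n) * g n m, fun n => W_smul (hg n) ?_, ?_⟩
  · rw [RCLike.norm_conj, hu]
  have h1 : ∀ n ∈ Icc 1 X, (∑ m ∈ Ioc n (n + H), ‖L m - (starRingEnd ℂ) (u n) * g n m‖ ^ 2) / H ≤
      2 * ((∑ m ∈ Ioc n (n + H), ‖u m * L m - g n m‖ ^ 2) / H) +
        (if n ≤ H then 8 else 4 * (T * H / n)) := by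
    intro n hn
    rw [mem_Icc] at hn
    have hn0 : (0 : ℝ) < n := by exact_mod_cast hn.1
    have h2 : ∀ m ∈ Ioc n (n + H), ‖L m - (starRingEnd ℂ) (u n) * g n m‖ ^ 2 ≤
        2 * ‖u m * L m - g n m‖ ^ 2 + (if n ≤ H then 8 else 4 * (T * H / n)) := by
      intro m hm
      rw [mem_Ioc] at hm
      have h3 : ‖L m - (starRingEnd ℂ) (u n) * g n m‖ = ‖u n * L m - g n m‖ := by
        have h4 : u n * (starRingEnd ℂ) (u n) = 1 := by
          rw [Complex.mul_conj, Complex.normSq_eq_norm_sq, hu]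
          simp
        have h5 : u n * (L m - (starRingEnd ℂ) (u n) * g n m) = u n * L m - g n m := by
          rw [mul_sub, ← mul_assoc, h4, one_mul]
        rw [← h5, norm_mul, hu, one_mul]
      have h4 : u n * L m - g n m = (u m * L m - g n m) + (u n - u m) * L m := by ring
      rw [h3, h4]
      refine (nsq_add _ _).trans ?_
      have h5 : ‖(u n - u m) * L m‖ ≤ ‖u n - u m‖ := by
        rw [norm_mul]
        exact mul_le_of_le_one_right (norm_nonneg _) (hL m)
      have h6 : ‖u n - u m‖ ≤ 2 := by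
        refine (norm_sub_le _ _).trans ?_
        rw [hu, hu]
        norm_num
      have h7 : ‖u n - u m‖ ≤ T * H / n := by
        have h8 := hsl n (m - n) hn.1
        have h9 : n + (m - n) = m := by omega
        rw [h9] at h8
        rw [norm_sub_rev]
        refine h8.trans ?_
        apply div_le_div_of_nonneg_right _ hn0.le
        apply mul_le_mul_of_nonneg_left _ hT
        exact_mod_cast (by omega : m - n ≤ H)
      have h8 : ‖(u n - u m) * L m‖ ^ 2 ≤ ‖u n - u m‖ ^ 2 :=
        pow_le_pow_left₀ (norm_nonneg _) h5 2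
      have h9 := norm_nonneg (u n - u m)
      split_ifs
      · nlinarith
      · nlinarith
    rw [div_le_iff₀ hHr]
    refine (sum_le_sum h2).trans ?_
    rw [sum_add_distrib, ← mul_sum, sum_const, Nat.card_Ioc, nsmul_eq_mul]
    have h3 : n + H - n = H := by omega
    rw [h3]
    apply le_of_eq
    field_simp
  refine (lg_mono h1).trans ?_
  rw [lg_add, lg_mul]
  have h2 : lg X (fun n => if n ≤ H then (8 : ℝ) else 4 * (T * H / n)) ≤
      8 * (1 + Real.log H) + 4 * T := by
    unfold lg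
    have h3 : ∀ n ∈ Icc 1 X, (if n ≤ H then (8 : ℝ) else 4 * (T * H / n)) / n ≤
        (if n ≤ H then 8 * (1 / (n : ℝ)) else 0) +
        (if H < n then 4 * T * H * ((n : ℝ) ^ 2)⁻¹ else 0) := by
      intro n hn
      rw [mem_Icc] at hn
      have hn0 : (0 : ℝ) < n := by exact_mod_cast hn.1
      by_cases hnH : n ≤ H
      · have hnH' : ¬ H < n := by omega
        rw [if_pos hnH, if_pos hnH, if_neg hnH']
        apply le_of_eq
        ring
      · have hnH' : H < n := by omega
        rw [if_neg hnH, if_neg hnH, if_pos hnH']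
        apply le_of_eq
        field_simp
        ring
    refine (sum_le_sum h3).trans ?_
    rw [sum_add_distrib]
    apply add_le_add
    · rw [← sum_filter, ← mul_sum]
      apply mul_le_mul_of_nonneg_left _ (by norm_num)
      refine le_trans ?_ (hs_le H)
      unfold hs
      apply sum_le_sum_of_subset_of_nonneg
      · intro n hn
        rw [mem_filter, mem_Icc] at hn
        rw [mem_Icc]
        omega
      · intro n _ _
        positivity
    · rw [← sum_filter, ← mul_sum]
      have h4 : ∑ n ∈ (Icc 1 X).filter (fun n => H < n), ((n : ℝ) ^ 2)⁻¹ ≤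
          ∑ n ∈ Ioc H (max X H), ((n : ℝ) ^ 2)⁻¹ := by
        apply sum_le_sum_of_subset_of_nonneg
        · intro n hn
          rw [mem_filter, mem_Icc] at hn
          rw [mem_Ioc]
          have := le_max_left X H
          omega
        · intro n _ _
          positivity
      have h5 := sum_Ioc_inv_sq_le_sub (α := ℝ) (k := H) (n := max X H) (by omega)
        (le_max_right _ _)
      have h6 : (0 : ℝ) ≤ ((max X H : ℕ) : ℝ)⁻¹ := by positivity
      have h7 : ∑ n ∈ (Icc 1 X).filter (fun n => H < n), ((n : ℝ) ^ 2)⁻¹ ≤ (H : ℝ)⁻¹ := by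
        linarith
      calc 4 * T * H * ∑ n ∈ (Icc 1 X).filter (fun n => H < n), ((n : ℝ) ^ 2)⁻¹
          ≤ 4 * T * H * (H : ℝ)⁻¹ := mul_le_mul_of_nonneg_left h7 (by positivity)
        _ = 4 * T := by field_simp
  have h3 : (32 + 16 * T) ≤ e * Real.log X := by
    rw [div_le_iff₀ he] at hX
    linarith
  have h4 : 32 * Real.log H ≤ e * Real.log X := by
    have h5 : (32 + 16 * T) * Real.log H ≤ e * Real.log X := by
      have h6 : (32 + 16 * T) * Real.log H = e * ((32 + 16 * T) / e * Real.log H) := by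
        field_simp
      rw [h6]
      exact mul_le_mul_of_nonneg_left hXH he.le
    nlinarith [mul_nonneg hT hlH]
  nlinarith

/-- `n ^ (i t)` -/
noncomputable def ut (t : ℝ) (n : ℕ) : ℂ := Complex.exp (Complex.I * ((t * Real.log n : ℝ) : ℂ))

lemma norm_ut (t : ℝ) (n : ℕ) : ‖ut t n‖ = 1 := by
  unfold ut
  rw [mul_comm]
  exact Complex.norm_exp_ofReal_mul_I _

lemma ut_mul (t : ℝ) {m n : ℕ} (hm : m ≠ 0) (hn : n ≠ 0) : ut t (m * n) = ut t m * ut t n := by
  unfold ut
  rw [← Complex.exp_add]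
  congr 1
  rw [Nat.cast_mul, Real.log_mul (by exact_mod_cast hm) (by exact_mod_cast hn)]
  push_cast
  ring

lemma ut_one (t : ℝ) : ut t 1 = 1 := by simp [ut]

lemma ut_zero (t : ℝ) : ut t 0 = 1 := by simp [ut]

lemma ut_slow (t : ℝ) (n h : ℕ) (hn : 1 ≤ n) : ‖ut t (n + h) - ut t n‖ ≤ |t| * h / n := by
  have hn0 : (0 : ℝ) < n := by exact_mod_cast hn
  have hh0 : (0 : ℝ) ≤ h := Nat.cast_nonneg _
  have h1 : ut t (n + h) - ut t n =
      ut t n * (Complex.exp (Complex.I *
        ((t * (Real.log ((n + h : ℕ) : ℝ) - Real.log n) : ℝ) : ℂ)) - 1) := by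
    unfold ut
    rw [mul_sub, ← Complex.exp_add, mul_one]
    congr 2
    push_cast
    ring
  rw [h1, norm_mul, norm_ut, one_mul]
  refine Real.norm_exp_I_mul_ofReal_sub_one_le.trans ?_
  rw [norm_mul, Real.norm_eq_abs, Real.norm_eq_abs, mul_div_assoc]
  apply mul_le_mul_of_nonneg_left _ (abs_nonneg _)
  have h2 : Real.log ((n + h : ℕ) : ℝ) - Real.log n = Real.log (1 + h / n) := by
    rw [← Real.log_div (by positivity) hn0.ne']
    congr 1
    push_cast
    field_simp
  rw [h2, abs_of_nonneg (Real.log_nonneg (by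
    have : 0 ≤ (h : ℝ) / n := by positivity
    linarith))]
  have h3 := Real.log_le_sub_one_of_pos (x := 1 + (h : ℝ) / n) (by positivity)
  linarith

end Pool.Agent.H83.TR
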