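import Pool.Agent.H93.EB.Basic

/-!
# Transfer of theorem (G), MP_c59857_nt: sums of exponentials

`W N g`: the function `g` is a sum of `N` exponentials with coefficients of modulus at most one.
Closed under sums, products with periodic functions and dilations.
-/

set_option autoImplicit false

namespace Pool.Agent.H83.TR

open Finset Pool.Agent.H6.N4D

lemma ee_eq (x : ℝ) : ee x = Complex.exp ((2 * Real.pi * x : ℝ) * Complex.I) := rfl

lemma ee_addT (x y : ℝ) : ee (x + y) = ee x * ee y := by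
  rw [ee_eq, ee_eq, ee_eq, ← Complex.exp_add]
  congr 1
  push_cast
  ring

lemma norm_eeT (x : ℝ) : ‖ee x‖ = 1 := by
  rw [ee_eq]
  exact Complex.norm_exp_ofReal_mul_I _

lemma ee_intT (k : ℤ) : ee (k : ℝ) = 1 := by
  rw [ee_eq, Complex.exp_eq_one_iff]
  exact ⟨k, by push_cast; ring⟩

lemma ee_zeroT : ee 0 = 1 := by
  have := ee_intT 0
  simpa using this

lemma ee_powT (x : ℝ) (n : ℕ) : ee (n * x) = ee x ^ n := by
  rw [ee_eq, ee_eq, ← Complex.exp_nat_mul]
  congr 1
  push_cast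
  ring

lemma ee_eq_oneT {x : ℝ} (h : ee x = 1) : ∃ k : ℤ, x = k := by
  rw [ee_eq, Complex.exp_eq_one_iff] at h
  obtain ⟨k, hk⟩ := h
  refine ⟨k, ?_⟩
  have h2 : ((2 * Real.pi * x : ℝ) : ℂ) * Complex.I = ((2 * Real.pi * k : ℝ) : ℂ) * Complex.I := by
    rw [hk]
    push_cast
    ring
  have h3 := mul_right_cancel₀ Complex.I_ne_zero h2
  have h4 : 2 * Real.pi * x = 2 * Real.pi * k := by exact_mod_cast h3
  have h5 : (2 * Real.pi) ≠ 0 := by positivity
  exact mul_left_cancel₀ h5 h4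

/-- orthogonality of the additive characters -/
lemma orthT (k : ℕ) (hk : 1 ≤ k) (z : ℤ) :
    (1 / (k : ℂ)) * ∑ a ∈ range k, ee ((a : ℝ) / k * z) = if (k : ℤ) ∣ z then 1 else 0 := by
  have hk0 : (k : ℝ) ≠ 0 := by positivity
  have hkc : (k : ℂ) ≠ 0 := by exact_mod_cast (by omega : k ≠ 0)
  have h1 : ∀ a ∈ range k, ee ((a : ℝ) / k * z) = ee ((z : ℝ) / k) ^ a := by
    intro a _
    rw [← ee_powT]
    congr 1
    ring
  rw [sum_congr rfl h1]
  by_cases hz : (k : ℤ) ∣ z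
  · obtain ⟨w, rfl⟩ := hz
    have h2 : ee (((k * w : ℤ) : ℝ) / k) = 1 := by
      have : ((k * w : ℤ) : ℝ) / k = (w : ℝ) := by
        push_cast
        field_simp
      rw [this, ee_intT]
    rw [h2]
    simp [hkc]
  · rw [if_neg hz]
    have h2 : ee ((z : ℝ) / k) ≠ 1 := by
      intro h
      obtain ⟨w, hw⟩ := ee_eq_oneT h
      apply hz
      refine ⟨w, ?_⟩
      rw [div_eq_iff hk0] at hw
      have : (z : ℝ) = ((k * w : ℤ) : ℝ) := by
        rw [hw]
        push_cast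
        ring
      exact_mod_cast this
    have h3 : ee ((z : ℝ) / k) ^ k = 1 := by
      rw [← ee_powT]
      have : (k : ℝ) * ((z : ℝ) / k) = (z : ℝ) := by field_simp
      rw [this, ee_intT]
    rw [geom_sum_eq h2, h3]
    simp

/-- sums of `N` exponentials with coefficients of modulus at most one -/
def W (N : ℕ) (g : ℕ → ℂ) : Prop := ∃ (b : ℕ → ℂ) (β : ℕ → ℝ), (∀ r, ‖b r‖ ≤ 1) ∧
  ∀ m : ℕ, g m = ∑ r ∈ range N, b r * ee (β r * m)

lemma W_zero (N : ℕ) : W N (fun _ => 0) :=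
  ⟨fun _ => 0, fun _ => 0, fun _ => by simp, fun m => by simp⟩

lemma W_congr {N : ℕ} {g g' : ℕ → ℂ} (h : W N g) (hg : ∀ m, g' m = g m) : W N g' := by
  obtain ⟨b, β, hb, h⟩ := h
  exact ⟨b, β, hb, fun m => by rw [hg, h]⟩

lemma W_add {N M : ℕ} {g g' : ℕ → ℂ} (h : W N g) (h' : W M g') :
    W (N + M) (fun m => g m + g' m) := by
  obtain ⟨b, β, hb, h⟩ := h
  obtain ⟨b', β', hb', h'⟩ := h'
  refine ⟨fun r => if r < N then b r else b' (r - N), fun r => if r < N then β r else β' (r - N),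
    fun r => ?_, fun m => ?_⟩
  · dsimp only
    split_ifs
    · exact hb r
    · exact hb' _
  · dsimp only
    rw [h m, h' m, sum_range_add]
    congr 1
    · apply sum_congr rfl
      intro r hr
      rw [mem_range] at hr
      simp [hr]
    · apply sum_congr rfl
      intro r _
      simp

lemma W_mono {N M : ℕ} {g : ℕ → ℂ} (h : W N g) (hNM : N ≤ M) : W M g := by
  have h2 := W_add h (W_zero (M - N))
  have : N + (M - N) = M := by omega
  rw [this] at h2
  exact W_congr h2 fun m => by simp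

lemma W_sum {N : ℕ} {g : ℕ → ℕ → ℂ} (K : ℕ) (h : ∀ i < K, W N (g i)) :
    W (K * N) (fun m => ∑ i ∈ range K, g i m) := by
  induction K with
  | zero =>
    refine W_congr (W_zero _) fun m => by simp
  | succ K ih =>
    have h1 := ih fun i hi => h i (by omega)
    have h2 := W_add h1 (h K (by omega))
    have h3 : (K + 1) * N = K * N + N := by ring
    rw [h3]
    exact W_congr h2 fun m => by rw [sum_range_succ]

lemma W_smul {N : ℕ} {g : ℕ → ℂ} (h : W N g) {c : ℂ} (hc : ‖c‖ ≤ 1) :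
    W N (fun m => c * g m) := by
  obtain ⟨b, β, hb, h⟩ := h
  refine ⟨fun r => c * b r, β, fun r => ?_, fun m => ?_⟩
  · rw [norm_mul]
    exact mul_le_one₀ hc (norm_nonneg _) (hb r)
  · dsimp only
    rw [h m, mul_sum]
    exact sum_congr rfl fun r _ => by ring

lemma W_mod {N : ℕ} {g : ℕ → ℂ} (h : W N g) (γ : ℝ) :
    W N (fun m => ee (γ * m) * g m) := by
  obtain ⟨b, β, hb, h⟩ := h
  refine ⟨b, fun r => γ + β r, hb, fun m => ?_⟩
  dsimp only
  rw [h m, mul_sum]
  refine sum_congr rfl fun r _ => ?_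
  have : (γ + β r) * (m : ℝ) = γ * m + β r * m := by ring
  rw [this, ee_addT]
  ring

/-- dilations -/
lemma W_dil {N : ℕ} {g : ℕ → ℂ} (h : W N g) (D : ℕ) (hD : 1 ≤ D) :
    W (D * N) (fun m => if D ∣ m then g (m / D) else 0) := by
  obtain ⟨b, β, hb, h⟩ := h
  have hD0 : (D : ℝ) ≠ 0 := by positivity
  have hn : ‖(1 / (D : ℂ))‖ ≤ 1 := by
    rw [norm_div, norm_one, Complex.norm_natCast, div_le_one (by positivity)]
    exact_mod_cast hD
  have hW0 : W N (fun m => ∑ r ∈ range N, b r * ee (β r / D * m)) :=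
    ⟨b, fun r => β r / D, hb, fun m => rfl⟩
  have hW1 := W_sum (g := fun u m => (1 / (D : ℂ)) * (ee ((u : ℝ) / D * m) *
    ∑ r ∈ range N, b r * ee (β r / D * m))) D fun u _ => W_smul (W_mod hW0 ((u : ℝ) / D)) hn
  refine W_congr hW1 fun m => ?_
  have h1 : ∑ u ∈ range D, (1 / (D : ℂ)) * (ee ((u : ℝ) / D * m) *
      ∑ r ∈ range N, b r * ee (β r / D * m)) =
      ((1 / (D : ℂ)) * ∑ u ∈ range D, ee ((u : ℝ) / D * ((m : ℤ) : ℝ))) *
        ∑ r ∈ range N, b r * ee (β r / D * m) := by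
    generalize (∑ r ∈ range N, b r * ee (β r / D * m)) = T
    rw [mul_sum, sum_mul]
    refine sum_congr rfl fun u _ => ?_
    rw [Int.cast_natCast]
    ring
  rw [h1, orthT D hD]
  by_cases hd : D ∣ m
  · have hd' : (D : ℤ) ∣ (m : ℤ) := by exact_mod_cast hd
    rw [if_pos hd, if_pos hd', one_mul, h]
    obtain ⟨m', rfl⟩ := hd
    rw [Nat.mul_div_cancel_left m' (by omega)]
    refine sum_congr rfl fun r _ => ?_
    congr 2
    push_cast
    field_simp
  · have hd' : ¬ (D : ℤ) ∣ (m : ℤ) := by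
      intro hh
      exact hd (by exact_mod_cast hh)
    rw [if_neg hd, if_neg hd', zero_mul]

lemma per_mod {k : ℕ} {c : ℕ → ℂ} (hp : ∀ m, c (m + k) = c m) (m : ℕ) : c (m % k) = c m := by
  have h : ∀ q r : ℕ, c (r + k * q) = c r := by
    intro q r
    induction q with
    | zero => simp
    | succ q ih =>
      have : r + k * (q + 1) = (r + k * q) + k := by ring
      rw [this, hp, ih]
  have h2 := h (m / k) (m % k)
  rw [Nat.mod_add_div] at h2
  exact h2.symm

/-- the finite Fourier expansion of a periodic function -/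
lemma dftT {k : ℕ} (hk : 1 ≤ k) {c : ℕ → ℂ} (hp : ∀ m, c (m + k) = c m) (m : ℕ) :
    c m = ∑ a ∈ range k, (1 / (k : ℂ) * ∑ x ∈ range k, c x * ee (-((a : ℝ) / k * x))) *
      ee ((a : ℝ) / k * m) := by
  have h1 : ∑ a ∈ range k, (1 / (k : ℂ) * ∑ x ∈ range k, c x * ee (-((a : ℝ) / k * x))) *
      ee ((a : ℝ) / k * m) = ∑ x ∈ range k, c x *
        ((1 / (k : ℂ)) * ∑ a ∈ range k, ee ((a : ℝ) / k * (((m : ℤ) - (x : ℤ) : ℤ) : ℝ))) := by
    have h2 : ∀ a ∈ range k, (1 / (k : ℂ) * ∑ x ∈ range k, c x * ee (-((a : ℝ) / k * x))) *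
        ee ((a : ℝ) / k * m) = ∑ x ∈ range k, c x * ((1 / (k : ℂ)) *
          ee ((a : ℝ) / k * (((m : ℤ) - (x : ℤ) : ℤ) : ℝ))) := by
      intro a _
      rw [mul_sum, sum_mul]
      refine sum_congr rfl fun x _ => ?_
      have : (a : ℝ) / k * (((m : ℤ) - (x : ℤ) : ℤ) : ℝ) = -((a : ℝ) / k * x) + (a : ℝ) / k * m := by
        push_cast
        ring
      rw [this, ee_addT]
      ring
    rw [sum_congr rfl h2, sum_comm]
    refine sum_congr rfl fun x _ => ?_
    rw [mul_sum, mul_sum]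
  rw [h1]
  have h3 : ∀ x ∈ range k, c x *
      ((1 / (k : ℂ)) * ∑ a ∈ range k, ee ((a : ℝ) / k * (((m : ℤ) - (x : ℤ) : ℤ) : ℝ))) =
      if x = m % k then c x else 0 := by
    intro x hx
    rw [mem_range] at hx
    rw [orthT k hk]
    by_cases hxm : x = m % k
    · have hd : (k : ℤ) ∣ (m : ℤ) - (x : ℤ) := by
        rw [hxm]
        have := Nat.mod_add_div m k
        refine ⟨((m / k : ℕ) : ℤ), ?_⟩
        have h5 : (m : ℤ) = ((m % k : ℕ) : ℤ) + (k : ℤ) * ((m / k : ℕ) : ℤ) := by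
          exact_mod_cast this.symm
        linarith
      rw [if_pos hd, if_pos hxm, mul_one]
    · have hd : ¬ (k : ℤ) ∣ (m : ℤ) - (x : ℤ) := by
        intro hd
        apply hxm
        have h5 : (x : ℤ) ≡ (m : ℤ) [ZMOD (k : ℤ)] := (Int.modEq_iff_dvd).2 hd
        have h6 : x ≡ m [MOD k] := (Int.natCast_modEq_iff).1 h5
        unfold Nat.ModEq at h6
        rw [Nat.mod_eq_of_lt hx] at h6
        exact h6
      rw [if_neg hd, if_neg hxm, mul_zero]
  rw [sum_congr rfl h3, sum_ite_eq' (range k) (m % k) c,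
    if_pos (mem_range.2 (Nat.mod_lt m (by omega))), per_mod hp]

/-- products with periodic functions -/
lemma W_per {N : ℕ} {g : ℕ → ℂ} (h : W N g) {k : ℕ} (hk : 1 ≤ k) {c : ℕ → ℂ}
    (hp : ∀ m, c (m + k) = c m) (hc : ∀ m, ‖c m‖ ≤ 1) : W (k * N) (fun m => c m * g m) := by
  have hn : ∀ a : ℕ, ‖(1 / (k : ℂ) * ∑ x ∈ range k, c x * ee (-((a : ℝ) / k * x)))‖ ≤ 1 := by
    intro a
    rw [norm_mul, norm_div, norm_one, Complex.norm_natCast]
    have h1 : ‖∑ x ∈ range k, c x * ee (-((a : ℝ) / k * x))‖ ≤ ∑ x ∈ range k, (1 : ℝ) := by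
      refine (norm_sum_le _ _).trans (sum_le_sum fun x _ => ?_)
      rw [norm_mul, norm_eeT, mul_one]
      exact hc x
    rw [sum_const, card_range, nsmul_eq_mul, mul_one] at h1
    have hk0 : (0 : ℝ) < k := by positivity
    rw [one_div, inv_mul_le_iff₀ hk0, mul_one]
    exact h1
  have hW := W_sum (g := fun a m => (1 / (k : ℂ) * ∑ x ∈ range k, c x * ee (-((a : ℝ) / k * x))) *
    (ee ((a : ℝ) / k * m) * g m)) k fun a _ => W_smul (W_mod h ((a : ℝ) / k)) (hn a)
  refine W_congr hW fun m => ?_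
  rw [dftT hk hp m, sum_mul]
  exact sum_congr rfl fun a _ => by ring

end Pool.Agent.H83.TR
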